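import Pool.Agent.Lib.MP_305fdd_al.To.Ch.Word

/-!
# MP_305fdd_al, torsion room: cyclically reduced words and traces
-/

set_option autoImplicit false

namespace Pool.Agent.ToC

open Pool.Agent.Su
open Matrix (SpecialLinearGroup)

/-- the chain condition for a list followed by `b` -/
def Ch {X : Type} (R : X → X → Prop) : List X → X → Prop
  | [], _ => True
  | (a :: l), b => R a (l.headD b) ∧ Ch R l b

theorem not_Ch {X : Type} {R : X → X → Prop} : ∀ {l : List X} {b : X}, ¬ Ch R l b →
    (∃ l1 c d l2, l = l1 ++ c :: d :: l2 ∧ ¬ R c d) ∨ (∃ l1 c, l = l1 ++ [c] ∧ ¬ R c b)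
  | [], b, h => absurd trivial h
  | (a :: l), b, h => by
    by_cases h1 : R a (l.headD b)
    · have h2 : ¬ Ch R l b := fun h2 => h ⟨h1, h2⟩
      rcases not_Ch h2 with ⟨l1, c, d, l2, rfl, h3⟩ | ⟨l1, c, rfl, h3⟩
      · exact Or.inl ⟨a :: l1, c, d, l2, rfl, h3⟩
      · exact Or.inr ⟨a :: l1, c, rfl, h3⟩
    · cases l with
      | nil => exact Or.inr ⟨[], a, rfl, h1⟩
      | cons d l2 => exact Or.inl ⟨[], a, d, l2, rfl, h1⟩

theorem isConj_mul_comm {Γ : Type} [Group Γ] (a b : Γ) : IsConj (a * b) (b * a) :=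
  isConj_iff.2 ⟨b, by group⟩

/-- a list whose product is conjugate to `x`, cyclically reduced -/
theorem exists_cycl {Γ X : Type} [Group Γ] (v : X → Γ) (R : X → X → Prop)
    (H2 : ∀ a b m, ¬ R a b → ∃ m' : List X, m'.length < m.length + 2 ∧
      IsConj ((a :: b :: m).map v).prod (m'.map v).prod)
    (H1 : ∀ a, ¬ R a a → ∃ m' : List X, m'.length < 1 ∧ IsConj (v a) (m'.map v).prod)
    (x : Γ) : ∀ (n : ℕ) (l : List X), l.length = n → IsConj x (l.map v).prod →
      ∃ l' : List X, IsConj x (l'.map v).prod ∧ (l' = [] ∨ ∃ b l'', l' = b :: l'' ∧ Ch R l' b) := by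
  intro n
  induction n using Nat.strong_induction_on with
  | _ n ih =>
    intro l hl hx
    cases l with
    | nil => exact ⟨[], hx, Or.inl rfl⟩
    | cons b l0 =>
      by_cases h : Ch R (b :: l0) b
      · exact ⟨b :: l0, hx, Or.inr ⟨b, l0, rfl, h⟩⟩
      · rcases not_Ch h with ⟨l1, c, d, l2, h1, h2⟩ | ⟨l1, c, h1, h2⟩
        · obtain ⟨m', h3, h4⟩ := H2 c d (l2 ++ l1) h2
          refine ih m'.length ?_ m' rfl (hx.trans (IsConj.trans ?_ h4))
          · rw [← hl, h1]
            simp only [List.length_append, List.length_cons] at h3 ⊢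
            omega
          · rw [h1]
            have e : (List.map v (c :: d :: (l2 ++ l1))).prod =
                (List.map v (c :: d :: l2)).prod * (List.map v l1).prod := by
              rw [← List.prod_append, ← List.map_append]; rfl
            rw [e, List.map_append, List.prod_append]
            exact isConj_mul_comm _ _
        · cases l1 with
          | nil =>
            simp only [List.nil_append, List.cons.injEq] at h1
            obtain ⟨rfl, rfl⟩ := h1
            obtain ⟨m', h3, h4⟩ := H1 b h2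
            refine ih m'.length ?_ m' rfl (hx.trans (IsConj.trans ?_ h4))
            · rw [← hl]
              simp only [List.length_cons, List.length_nil]
              omega
            · simp only [List.map_cons, List.map_nil, List.prod_cons, List.prod_nil, mul_one]
              exact IsConj.refl _
          | cons b' l3 =>
            simp only [List.cons_append, List.cons.injEq] at h1
            obtain ⟨rfl, rfl⟩ := h1
            obtain ⟨m', h3, h4⟩ := H2 c b l3 h2
            refine ih m'.length ?_ m' rfl (hx.trans (IsConj.trans ?_ h4))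
            · rw [← hl]
              simp only [List.length_append, List.length_cons, List.length_nil]
              omega
            · have e : (List.map v (b :: (l3 ++ [c]))).prod =
                  (List.map v (b :: l3)).prod * v c := by
                simp [List.map_append, List.prod_append, mul_assoc]
              have e' : (List.map v (c :: b :: l3)).prod =
                  v c * (List.map v (b :: l3)).prod := by
                rw [List.map_cons, List.prod_cons]
              rw [e, e']
              exact isConj_mul_comm _ _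

section

variable {A : Type} [CommRing A] {S : Subsemiring A}

/-- a chain of maps of cones -/
theorem Ch.mp {X : Type} {R : X → X → Prop} (M : X → SpecialLinearGroup (Fin 2) A)
    (t : X → (Fin 2 → A) × (Fin 2 → A)) (hR : ∀ a b, R a b → Mp S (M a) (t b) (t a)) :
    ∀ {l : List X} {b : X}, Ch R l b → Mp S (l.map M).prod (t b) (t (l.headD b))
  | [], b, _ => Mp.refl (t b)
  | (a :: l), b, h => by
    rw [List.map_cons, List.prod_cons]
    exact (hR a _ h.1).comp (Ch.mp M t hR h.2)

theorem trace_conj {M N : SpecialLinearGroup (Fin 2) A} (h : IsConj M N) :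
    M.1.trace = N.1.trace := by
  obtain ⟨C, rfl⟩ := isConj_iff.1 h
  have h1 : (C * M * C⁻¹).1 = C.1 * (M * C⁻¹).1 := by rw [mul_assoc]; rfl
  have h2 : (M * C⁻¹).1 * C.1 = M.1 := by
    change (M * C⁻¹ * C).1 = M.1
    rw [mul_assoc, inv_mul_cancel, mul_one]
  rw [h1, Matrix.trace_mul_comm, h2]

end

/-- the value of a list of pairs of letters -/
def vp (g : ℕ) (a : ℤ × ℤ) : SurfaceGroup g := (Gz g a.1)⁻¹ * Gz g a.2

theorem exists_list {g : ℕ} {x : SurfaceGroup g} (hx : x ∈ FF g) :
    ∃ l : List (ℤ × ℤ), x = (l.map (vp g)).prod := by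
  refine Subgroup.closure_induction_left
    (p := fun x _ => ∃ l : List (ℤ × ℤ), x = (l.map (vp g)).prod) ⟨[], rfl⟩ ?_ ?_ hx
  · rintro x ⟨j, rfl⟩ y _ ⟨l, rfl⟩
    exact ⟨(j - 1, j) :: l, rfl⟩
  · rintro x ⟨j, rfl⟩ y _ ⟨l, rfl⟩
    refine ⟨(j, j - 1) :: l, ?_⟩
    rw [inv_cz]; rfl

namespace Dat

variable {A : Type} [CommRing A] {S : Subsemiring A} {g : ℕ} (D : Dat S g)

theorem fT (hg : 1 ≤ g) {x : SurfaceGroup g} (hx : x ∈ FF g) (h : x ≠ 1) :
    ∃ e : A, (e = 1 ∨ e = -1) ∧ e * (D.rho x).1.trace ∈ S := by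
  obtain ⟨l0, h0⟩ := exists_list hx
  obtain ⟨l, h1, h2⟩ := exists_cycl (vp g) (fun a b => Nd g a.1 a.2 ∧ Nd g a.2 b.1) (by
      rintro ⟨p, q⟩ ⟨r, s⟩ m h
      by_cases h1 : Nd g p q
      · have h2 : ¬ Nd g q r := fun h2 => h ⟨h1, h2⟩
        refine ⟨(p, s) :: m, by simp, ?_⟩
        have e : ((((p, q) : ℤ × ℤ) :: (r, s) :: m).map (vp g)).prod =
            ((((p, s) : ℤ × ℤ) :: m).map (vp g)).prod := by
          simp only [List.map_cons, List.prod_cons, vp, Gz_eq' h2]
          group
        rw [e]
      · refine ⟨(r, s) :: m, by simp, ?_⟩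
        have e : ((((p, q) : ℤ × ℤ) :: (r, s) :: m).map (vp g)).prod =
            ((((r, s) : ℤ × ℤ) :: m).map (vp g)).prod := by
          simp only [List.map_cons, List.prod_cons, vp, Gz_eq' h1]
          group
        rw [e]) (by
      rintro ⟨p, q⟩ h
      have h1 : ¬ Nd g p q := fun h1 => h ⟨h1, h1.symm⟩
      refine ⟨[], by simp, ?_⟩
      have e : vp g (p, q) = 1 := by
        simp only [vp, Gz_eq' h1]
        group
      rw [e]; rfl) x l0.length l0 rfl (by rw [← h0])
  rcases h2 with rfl | ⟨b, l', rfl, h2⟩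
  · exact absurd (isConj_one_left.1 h1) h
  · have h3 : Mp S (((b :: l').map fun a => D.rho (vp g a)).prod) (D.cC b.1) (D.cC b.1) :=
      Ch.mp (fun a : ℤ × ℤ => D.rho (vp g a)) (fun a => D.cC a.1) (by
        rintro ⟨p, q⟩ ⟨r, s⟩ ⟨h4, h5⟩
        have h6 := (D.Mp_rho_pair hg h4).comp (D.Mp_C_D hg h5)
        rwa [mul_one] at h6) h2
    obtain ⟨e, he, h4⟩ := h3.tr (D.lei_mul b.1)
    refine ⟨e, he, ?_⟩
    have h5 : ((b :: l').map fun a => D.rho (vp g a)).prod =
        D.rho (((b :: l').map (vp g)).prod) := by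
      rw [map_list_prod, List.map_map]; rfl
    rw [h5] at h4
    rwa [trace_conj (MonoidHom.map_isConj D.rho h1)]

end Dat

end Pool.Agent.ToC
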