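import Pool.Agent.Lib.MP_305fdd_al.To.Ch.Glue
import Pool.Agent.Lib.MP_305fdd_al.To.Ch.Cyc

/-!
# MP_305fdd_al, torsion room: all the elements of the surface group

The letters `b_i` and the elements of the group of the `2g`-holed sphere: reduced words.  Every nontrivial
element maps the front polygon beyond one of its edges, and its trace is positive up to the sign.
-/

set_option autoImplicit false

namespace Pool.Agent.ToC

open Pool.Agent.Su
open Matrix (SpecialLinearGroup)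

section

variable {g : ℕ}

/-- the line of a letter: `(i, false)` is the line `2i`, `(i, true)` is the line `2i+1` -/
def ix (a : Fin g × Bool) : ℤ := 2 * (a.1 : ℕ) + (if a.2 then 1 else 0)

theorem ix_false (i : Fin g) : ix (i, false) = 2 * (i : ℕ) := by simp [ix]

theorem ix_true (i : Fin g) : ix (i, true) = 2 * (i : ℕ) + 1 := by simp [ix]

theorem ix_nonneg (a : Fin g × Bool) : 0 ≤ ix a := by
  obtain ⟨i, b⟩ := a
  cases b
  · rw [ix_false]; omega
  · rw [ix_true]; omega

theorem ix_lt (a : Fin g × Bool) : ix a < 2 * g := by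
  obtain ⟨i, b⟩ := a
  have := i.2
  cases b
  · rw [ix_false]; omega
  · rw [ix_true]; omega

theorem ix_inj {a b : Fin g × Bool} (h : ix a = ix b) : a = b := by
  obtain ⟨i, s⟩ := a
  obtain ⟨j, t⟩ := b
  cases s <;> cases t
  · rw [ix_false, ix_false] at h
    have : i = j := Fin.ext (by omega)
    rw [this]
  · rw [ix_false, ix_true] at h
    omega
  · rw [ix_true, ix_false] at h
    omega
  · rw [ix_true, ix_true] at h
    have : i = j := Fin.ext (by omega)
    rw [this]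

theorem ix_nd {a b : Fin g × Bool} (h : a ≠ b) : Nd g (ix a) (ix b) := by
  intro h'
  apply h
  apply ix_inj
  have h1 := ix_nonneg a
  have h2 := ix_lt a
  have h3 := ix_nonneg b
  have h4 := ix_lt b
  have h5 := Int.eq_zero_of_abs_lt_dvd h' (by rw [abs_lt]; constructor <;> linarith)
  linarith

/-- the letters -/
def lv (a : Fin g × Bool) : SurfaceGroup g := if a.2 then sb g a.1 else (sb g a.1)⁻¹

/-- the letter `h` crosses the line `a`, the new line is `h` times the line `b` -/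
def LL (a : Fin g × Bool) (h : SurfaceGroup g) (b : Fin g × Bool) : Prop :=
  h = lv a ∧ b = (a.1, !a.2)

theorem lv_not (a : Fin g × Bool) : lv (a.1, !a.2) = (lv a)⁻¹ := by
  obtain ⟨i, s⟩ := a
  cases s <;> simp [lv]

theorem conj_even (i : Fin g) (m : ℤ) :
    sb g i * cz g (2 * (i : ℕ)) ^ m * (sb g i)⁻¹ = cz g (2 * (i : ℕ) + 1) ^ (-m) := by
  rw [cz_even, cz_odd, zpow_neg, ← inv_zpow, mul_inv_rev, mul_inv_rev, inv_inv, inv_inv,
    ← mul_assoc, conj_zpow]

theorem conj_odd (i : Fin g) (m : ℤ) :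
    (sb g i)⁻¹ * cz g (2 * (i : ℕ) + 1) ^ m * sb g i = cz g (2 * (i : ℕ)) ^ (-m) := by
  have h := conj_even i (-m)
  rw [neg_neg] at h
  rw [← h]
  group

theorem lv_conj (a : Fin g × Bool) {f : SurfaceGroup g}
    (hf : f ∈ Subgroup.zpowers (cz g (ix (a.1, !a.2)))) : lv a * f * (lv a)⁻¹ ∈ FF g := by
  obtain ⟨m, rfl⟩ := Subgroup.mem_zpowers_iff.1 hf
  obtain ⟨i, s⟩ := a
  cases s
  · have h : lv (i, false) * cz g (ix (i, true)) ^ m * (lv (i, false))⁻¹ =
        cz g (2 * (i : ℕ)) ^ (-m) := by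
      rw [← conj_odd, ix_true]
      simp [lv]
    exact h ▸ zpow_mem (cz_mem g _) _
  · have h : lv (i, true) * cz g (ix (i, false)) ^ m * (lv (i, true))⁻¹ =
        cz g (2 * (i : ℕ) + 1) ^ (-m) := by
      rw [← conj_even, ix_false]
      simp [lv]
    exact h ▸ zpow_mem (cz_mem g _) _

/-- the trivial cone -/
abbrev tc : ToCh.PCone ℤ where
  P0 _ := True
  Pp _ := True
  zero := trivial
  one := trivial
  sub _ := trivial
  add0 _ _ := trivial
  mul0 _ _ := trivial
  addp _ _ := trivial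
  mulp _ _ := trivial

theorem lt_LL : @ToCh.Lt ℤ _ tc (SurfaceGroup g) _ (Fin g × Bool) 1 (FF g)
    (fun a => cz g (ix a)) (fun _ => 1) LL := by
  letI := tc
  constructor
  · intro i h j _
    exact ⟨1, Or.inl rfl, fun _ _ => trivial, fun _ => trivial⟩
  · rintro a h b ⟨rfl, rfl⟩
    refine ⟨(lv_not a).symm, ?_⟩
    simp
  · rintro a h b h' c f ⟨rfl, rfl⟩ ⟨rfl, rfl⟩ hf
    left
    rw [lv_not]
    exact lv_conj a hf

theorem LL_ne {a b : Fin g × Bool} {h : SurfaceGroup g} (hh : LL a h b) : a ≠ b := by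
  obtain ⟨-, rfl⟩ := hh
  intro h'
  have := congrArg Prod.snd h'
  simp at this

theorem closure_LL : Subgroup.closure ((FF g : Set (SurfaceGroup g)) ∪
    {h | ∃ i j, LL i h j}) = ⊤ := by
  refine surf_gen _ (fun i => ?_) (fun i => ?_)
  · refine Subgroup.subset_closure (Or.inl ?_)
    have h := cz_mem g (2 * (i : ℕ))
    rwa [cz_even] at h
  · refine Subgroup.subset_closure (Or.inr ⟨(i, true), (i, false), ?_, rfl⟩)
    simp [lv]

end

namespace Dat

variable {A : Type} [CommRing A] {S : Subsemiring A} {g : ℕ} (D : Dat S g)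

theorem Mp_LL {a b : Fin g × Bool} {h : SurfaceGroup g} (hh : LL a h b) :
    Mp S (D.rho h) (D.cK (ix b)) (D.cJ (ix a)) := by
  obtain ⟨rfl, rfl⟩ := hh
  obtain ⟨i, s⟩ := a
  cases s
  · have h1 : D.rho (lv (i, false)) = (D.B (i : ℕ))⁻¹ := by simp [lv, map_inv, rho_b]
    rw [h1, ix_false]
    have h2 := D.Mp_B_inv (i : ℕ)
    rwa [← ix_true i] at h2
  · have h1 : D.rho (lv (i, true)) = D.B (i : ℕ) := by simp [lv, rho_b]
    rw [h1, ix_true]
    have h2 := D.Mp_B (i : ℕ)
    rwa [← ix_false i] at h2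

theorem Mp_Rw (hg : 2 ≤ g) {n : ℕ} {i j : Fin g × Bool} {u : SurfaceGroup g}
    (hu : ToCh.Rw (FF g) (fun a => cz g (ix a)) LL n i j u) :
    Mp S (D.rho u) (D.cK (ix j)) (D.cJ (ix i)) := by
  induction hu with
  | one h => exact D.Mp_LL h
  | @snoc n i j k l u f h hu hf hh hc ih =>
    have h1 : Nd g (ix j) (ix k) ∨ f ∉ Subgroup.zpowers (cz g (ix j)) := by
      by_cases h2 : j = k
      · exact Or.inr fun h3 => hc ⟨h2, h3⟩
      · exact Or.inl (ix_nd h2)
    have h2 := (ih.comp (D.fJ hg hf h1)).comp (D.Mp_LL hh)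
    rwa [← map_mul, ← map_mul] at h2

/-- NESTING: every nontrivial element maps the vertices of the front polygon beyond one edge -/
theorem nest (hg : 2 ≤ g) {x : SurfaceGroup g} (hx : x ≠ 1) :
    ∃ j : ℤ, Mv D (D.rho x) (D.cC j) := by
  letI := tc
  obtain ⟨n, h | ⟨m, -, i, j, u, f, f', hu, hf, hf', rfl⟩⟩ :=
    ToCh.exists_rep (g := x) (lt_LL (g := g)) (by rw [closure_LL]; exact Subgroup.mem_top _)
  · exact D.fN hg h hx
  · obtain ⟨i', h1⟩ := D.fC hg hf (ix i)
    refine ⟨i', ?_⟩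
    have h2 := Mv.comp (h1.comp (D.Mp_Rw hg hu)) (D.fV hg hf' (ix j))
    rwa [← map_mul, ← map_mul] at h2

/-- THE TRACES are positive up to the sign -/
theorem tr_mem (hg : 2 ≤ g) {x : SurfaceGroup g} (hx : x ≠ 1) :
    ∃ e : A, (e = 1 ∨ e = -1) ∧ e * (D.rho x).1.trace ∈ S := by
  letI := tc
  obtain ⟨n, hn⟩ :=
    ToCh.exists_rep (g := x) (lt_LL (g := g)) (by rw [closure_LL]; exact Subgroup.mem_top _)
  obtain ⟨c, hc⟩ := ToCh.exists_cyc (lt_LL (g := g)) LL_ne n x hn
  have h1 : (D.rho (c⁻¹ * x * c)).1.trace = (D.rho x).1.trace :=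
    trace_conj (MonoidHom.map_isConj D.rho (isConj_iff.2 ⟨c, by group⟩))
  rw [← h1]
  rcases hc with hc | ⟨n, i, j, u, f, hu, hf, hc, h2⟩
  · refine D.fT (by omega) hc fun h2 => hx ?_
    have h3 : x = c * (c⁻¹ * x * c) * c⁻¹ := by group
    rw [h3, h2]
    group
  · rw [h2]
    have h3 : Nd g (ix j) (ix i) ∨ f ∉ Subgroup.zpowers (cz g (ix j)) := by
      by_cases h2 : j = i
      · exact Or.inr fun h3 => hc ⟨h2, h3⟩
      · exact Or.inl (ix_nd h2)
    have h4 := (D.Mp_Rw hg hu).comp (D.fJ hg hf h3)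
    rw [← map_mul] at h4
    exact h4.tr (u := 1) (by rw [mul_one]; exact D.dt_nu_n _)

end Dat

end Pool.Agent.ToC
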