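import Pool.Agent.Lib.MP_305fdd_al.To.Ch.Mid
import Pool.Agent.Lib.MP_305fdd_al.To.Ch.Let

/-!
# MP_305fdd_al, torsion room: the midpoint theorem for chart data, unconditional
-/

set_option autoImplicit false

namespace Pool.Agent.ToC

open Matrix Pool.Agent.Su

variable {g : ℕ}

theorem pos_S3 (hg : 2 ≤ g) (D : Dat S3 g) (x : SurfaceGroup g) :
    ∃ e : A3, (e = 1 ∨ e = -1) ∧ e * (D.rho x).1.trace ∈ S3 := by
  by_cases hx : x = 1
  · subst hx
    refine ⟨1, Or.inl rfl, ?_⟩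
    have h1 : (D.rho 1).1.trace = (1 : A3) + 1 := by
      rw [map_one, trace_fin_two]
      rfl
    rw [h1, one_mul]
    exact S3.add_mem S3.one_mem S3.one_mem
  · exact D.tr_mem hg hx

/-- THE MIDPOINT THEOREM for the traces of chart data -/
theorem mid (hg : 2 ≤ g) (D₁ D₂ : Dat NN g) : ∃ D : Dat NN g, ∀ x : SurfaceGroup g,
    (D.rho x).1.trace ^ 2 ≤ (D₁.rho x).1.trace * (D₂.rho x).1.trace :=
  exists_mid (by omega) (pos_S3 hg) D₁ D₂

/-- the traces of two chart data have the same signs -/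
theorem same_sign (hg : 2 ≤ g) (D₁ D₂ : Dat NN g) (x : SurfaceGroup g) :
    0 ≤ (D₁.rho x).1.trace * (D₂.rho x).1.trace := by
  obtain ⟨D, h⟩ := mid hg D₁ D₂
  exact (sq_nonneg _).trans (h x)

end Pool.Agent.ToC
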