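import Pool.Agent.Lib.MP_305fdd_al.To.Ch.Basic
import Mathlib.Data.Int.GCD

/-!
# MP_305fdd_al, torsion room: cones of a chart datum
-/

set_option autoImplicit false

namespace Pool.Agent.ToC

open Matrix Pool.Agent.Su

variable {A : Type} [CommRing A]

/-- the cone of the nonnegative combinations of two vectors -/
def cone (S : Subsemiring A) (P : (Fin 2 → A) × (Fin 2 → A)) : Set (Fin 2 → A) :=
  {v | ∃ a ∈ S, ∃ b ∈ S, v = a • P.1 + b • P.2}

/-- `M` maps the cone of `P` into the cone of `Q` or into its negative -/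
def Mp (S : Subsemiring A) (M : SpecialLinearGroup (Fin 2) A)
    (P Q : (Fin 2 → A) × (Fin 2 → A)) : Prop :=
  ∃ e : A, (e = 1 ∨ e = -1) ∧ e • ac M P.1 ∈ cone S Q ∧ e • ac M P.2 ∈ cone S Q

section

variable {S : Subsemiring A}

theorem fst_mem_cone (P : (Fin 2 → A) × (Fin 2 → A)) : P.1 ∈ cone S P :=
  ⟨1, S.one_mem, 0, S.zero_mem, by simp⟩

theorem snd_mem_cone (P : (Fin 2 → A) × (Fin 2 → A)) : P.2 ∈ cone S P :=
  ⟨0, S.zero_mem, 1, S.one_mem, by simp⟩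

theorem cone_add {P : (Fin 2 → A) × (Fin 2 → A)} {u v : Fin 2 → A} (hu : u ∈ cone S P)
    (hv : v ∈ cone S P) : u + v ∈ cone S P := by
  obtain ⟨a, ha, b, hb, rfl⟩ := hu
  obtain ⟨c, hc, d, hd, rfl⟩ := hv
  refine ⟨a + c, S.add_mem ha hc, b + d, S.add_mem hb hd, ?_⟩
  rw [add_smul, add_smul]
  abel

theorem cone_smul {P : (Fin 2 → A) × (Fin 2 → A)} {u : Fin 2 → A} (hu : u ∈ cone S P)
    {c : A} (hc : c ∈ S) : c • u ∈ cone S P := by
  obtain ⟨a, ha, b, hb, rfl⟩ := hu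
  exact ⟨c * a, S.mul_mem hc ha, c * b, S.mul_mem hc hb, by rw [smul_add, smul_smul, smul_smul]⟩

theorem sgn_mul {e f : A} (he : e = 1 ∨ e = -1) (hf : f = 1 ∨ f = -1) : e * f = 1 ∨ e * f = -1 := by
  rcases he with rfl | rfl <;> rcases hf with rfl | rfl <;> simp

theorem sgn_sq {e : A} (he : e = 1 ∨ e = -1) : e * e = 1 := by
  rcases he with rfl | rfl <;> simp

/-- a map of cones maps all the vectors -/
theorem Mp.all {M : SpecialLinearGroup (Fin 2) A} {P Q : (Fin 2 → A) × (Fin 2 → A)}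
    (h : Mp S M P Q) : ∃ e : A, (e = 1 ∨ e = -1) ∧ ∀ v ∈ cone S P, e • ac M v ∈ cone S Q := by
  obtain ⟨e, he, h1, h2⟩ := h
  refine ⟨e, he, ?_⟩
  rintro v ⟨a, ha, b, hb, rfl⟩
  rw [ac_add, ac_smul, ac_smul, smul_add, smul_comm e a, smul_comm e b]
  exact cone_add (cone_smul h1 ha) (cone_smul h2 hb)

theorem Mp.comp {M N : SpecialLinearGroup (Fin 2) A} {P Q R : (Fin 2 → A) × (Fin 2 → A)}
    (hN : Mp S N Q R) (hM : Mp S M P Q) : Mp S (N * M) P R := by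
  obtain ⟨f, hf, h⟩ := hN.all
  obtain ⟨e, he, h1, h2⟩ := hM
  refine ⟨f * e, sgn_mul hf he, ?_, ?_⟩
  · have := h _ h1
    rwa [ac_smul, smul_smul, ← ac_mul] at this
  · have := h _ h2
    rwa [ac_smul, smul_smul, ← ac_mul] at this

/-- the trace of a matrix which maps a cone into itself -/
theorem Mp.tr {M : SpecialLinearGroup (Fin 2) A} {P : (Fin 2 → A) × (Fin 2 → A)}
    (h : Mp S M P P) {u : A} (hu : dt P.1 P.2 * u = 1) :
    ∃ e : A, (e = 1 ∨ e = -1) ∧ e * M.1.trace ∈ S := by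
  obtain ⟨e, he, ⟨a, ha, b, hb, h1⟩, ⟨c, hc, d, hd, h2⟩⟩ := h
  refine ⟨e, he, ?_⟩
  have key : M.1.trace * dt P.1 P.2 = dt (ac M P.1) P.2 + dt P.1 (ac M P.2) := by
    simp only [dt, ac_zero_apply, ac_one_apply, trace_fin_two]
    ring
  have k1 : e * dt (ac M P.1) P.2 = a * dt P.1 P.2 := by
    rw [← dt_smul_left, h1, dt_add_left, dt_smul_left, dt_smul_left, dt_self, mul_zero, add_zero]
  have k2 : e * dt P.1 (ac M P.2) = d * dt P.1 P.2 := by
    rw [← dt_smul_right, h2, dt_add_right, dt_smul_right, dt_smul_right, dt_self, mul_zero,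
      zero_add]
  have k3 : e * M.1.trace = a + d := by
    linear_combination (-(e * M.1.trace) + (a + d)) * hu + (u * e) * key + u * k1 + u * k2
  rw [k3]
  exact S.add_mem ha hd

end

namespace Dat

variable {S : Subsemiring A} {g : ℕ} (D : Dat S g)

/-- beyond the edge `j` of the front polygon -/
def cC (j : ℤ) : (Fin 2 → A) × (Fin 2 → A) := (D.nu j, D.nu (j + 1))

/-- the side of the front polygon of the edge `j` -/
def cD (j : ℤ) : (Fin 2 → A) × (Fin 2 → A) := (D.nu (j + 1), - D.nu j)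

/-- beyond the edge `j` of the back polygon -/
def cC' (j : ℤ) : (Fin 2 → A) × (Fin 2 → A) := (D.w (j + 1), D.w j)

/-- the side of the back polygon of its edge `j` -/
def cD' (j : ℤ) : (Fin 2 → A) × (Fin 2 → A) := (D.w j, - D.w (j + 1))

/-- behind the line `j` -/
def cJ (j : ℤ) : (Fin 2 → A) × (Fin 2 → A) := (D.nu j, D.n j)

/-- the side of the front polygon of the line `j` -/
def cK (j : ℤ) : (Fin 2 → A) × (Fin 2 → A) := (D.n j, - D.nu j)

theorem le_mem (hg : 2 ≤ g) (j : ℤ) : D.le j ∈ S := D.nu_pos j (j + 1) (by omega) (by omega)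

theorem G_aux2 (j : ℤ) : ac (D.G (j - 1))⁻¹ (D.w j) = - D.nu j := by
  have h := D.G_nu' (j - 1)
  rw [sub_add_cancel] at h
  rw [← neg_inj, ← ac_neg, ← h, ac_inv_ac, neg_neg]

theorem inv_G_w (j : ℤ) : ac (D.G j)⁻¹ (D.w j) = D.mui j • D.nu j := by
  have h : ac (D.G j)⁻¹ (ac (D.G j) (D.mui j • D.nu j)) = D.mui j • D.nu j := ac_inv_ac _ _
  rwa [ac_smul, D.G_nu, smul_smul, mul_comm, D.mu_mul, one_smul] at h

theorem inv_G_w' (j : ℤ) : ac (D.G j)⁻¹ (D.w (j + 1)) = - D.nu (j + 1) := by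
  have h := D.G_aux2 (j + 1)
  rwa [add_sub_cancel_right] at h

theorem al_mem (hg : 2 ≤ g) (j : ℤ) : D.al j ∈ S := by
  -- `X = c_j nu_(j+1) = G_(j-1)⁻¹ w_(j+1)`
  have hX : ac (D.c j) (D.nu (j + 1)) = ac (D.G (j - 1))⁻¹ (D.w (j + 1)) := by
    rw [c, neg_ac, ac_mul, D.G_nu', ac_neg, neg_neg]
  set X := ac (D.c j) (D.nu (j + 1)) with hXd
  have h1 : dt X (D.nu j) = - (D.mui j * D.le j) := by
    rw [dt_swap, hXd, D.dt_nu_c]
  have h2 : dt X (D.nu (j - 1)) = D.mu (j - 1) * dt (D.w (j + 1)) (D.w (j - 1)) := by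
    have h3 : D.nu (j - 1) = D.mu (j - 1) • ac (D.G (j - 1))⁻¹ (D.w (j - 1)) := by
      rw [D.inv_G_w, smul_smul, D.mu_mul, one_smul]
    rw [h3, hX, dt_smul_right, dt_ac]
  have h4 := plucker (D.nu (j - 1)) (D.nu j) (D.nu (j + 1)) X
  have h5 : dt (D.nu (j - 1)) (D.nu j) * D.lei (j - 1) = 1 := by
    have := D.lei_mul (j - 1)
    rwa [sub_add_cancel] at this
  have h6 := D.lei_mul j
  have h7 : dt (D.nu (j + 1)) X * D.lei j = D.lei (j - 1) *
      (D.mui j * dt (D.nu (j - 1)) (D.nu (j + 1)) +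
        D.mu (j - 1) * dt (D.w (j + 1)) (D.w (j - 1))) := by
    have h8 : dt (D.nu j) X = D.mui j * D.le j := by rw [dt_swap, h1, neg_neg]
    have h9 : dt (D.nu (j - 1)) X = - (D.mu (j - 1) * dt (D.w (j + 1)) (D.w (j - 1))) := by
      rw [dt_swap, h2]
    rw [h8, h9, le] at h4
    linear_combination (-(dt (D.nu (j + 1)) X * D.lei j)) * h5 +
      (D.lei j * D.lei (j - 1)) * h4 +
      (D.lei (j - 1) * (D.mui j * dt (D.nu (j - 1)) (D.nu (j + 1)) +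
        D.mu (j - 1) * dt (D.w (j + 1)) (D.w (j - 1)))) * h6
  rw [al, ← hXd, h7]
  refine S.mul_mem (S.mul_mem (D.lei_mem _) (S.add_mem (S.mul_mem (D.mui_mem _) ?_)
    (S.mul_mem (D.mu_mem _) ?_))) (D.dl_mem _)
  · exact D.nu_pos _ _ (by omega) (by omega)
  · exact D.w_pos _ _ (by omega) (by omega)

/-- shift of the index by a multiple of the period -/
theorem shift (j t : ℤ) : ∃ e : A, (e = 1 ∨ e = -1) ∧ D.nu (j + 2 * g * t) = e • D.nu j ∧
    D.nu (j + 2 * g * t + 1) = e • D.nu (j + 1) ∧ D.w (j + 2 * g * t) = e • D.w j ∧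
    D.w (j + 2 * g * t + 1) = e • D.w (j + 1) ∧ D.G (j + 2 * g * t) = D.G j ∧
    D.c (j + 2 * g * t) = D.c j ∧ D.n (j + 2 * g * t) = e • D.n j := by
  induction t using Int.induction_on with
  | zero => exact ⟨1, Or.inl rfl, by simp⟩
  | succ t ih =>
    obtain ⟨e, he, h1, h2, h3, h4, h5, h6, h7⟩ := ih
    have s0 : j + 2 * (g : ℤ) * ((t : ℤ) + 1) = (j + 2 * g * t) + 2 * g := by ring
    have s1 : j + 2 * (g : ℤ) * ((t : ℤ) + 1) + 1 = (j + 2 * g * t + 1) + 2 * g := by ring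
    refine ⟨-e, ?_, ?_, ?_, ?_, ?_, ?_, ?_, ?_⟩
    · rcases he with rfl | rfl <;> simp
    · rw [s0, D.nu_per, h1, neg_smul]
    · rw [s1, D.nu_per, h2, neg_smul]
    · rw [s0, D.w_per, h3, neg_smul]
    · rw [s1, D.w_per, h4, neg_smul]
    · rw [s0, D.G_per, h5]
    · rw [s0, D.c_per, h6]
    · rw [s0, D.n_per, h7, neg_smul]
  | pred t ih =>
    obtain ⟨e, he, h1, h2, h3, h4, h5, h6, h7⟩ := ih
    have s0 : j + 2 * (g : ℤ) * (-(t : ℤ)) = (j + 2 * g * (-(t : ℤ) - 1)) + 2 * g := by ring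
    have s1 : j + 2 * (g : ℤ) * (-(t : ℤ)) + 1 = (j + 2 * g * (-(t : ℤ) - 1) + 1) + 2 * g := by
      ring
    rw [s1, D.nu_per] at h2
    rw [s0, D.nu_per] at h1
    rw [s1, D.w_per] at h4
    rw [s0, D.w_per] at h3
    rw [s0, D.G_per] at h5
    rw [s0, D.c_per] at h6
    rw [s0, D.n_per] at h7
    refine ⟨-e, ?_, ?_, ?_, ?_, ?_, h5, h6, ?_⟩
    · rcases he with rfl | rfl <;> simp
    · rw [neg_smul, ← h1, neg_neg]
    · rw [neg_smul, ← h2, neg_neg]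
    · rw [neg_smul, ← h3, neg_neg]
    · rw [neg_smul, ← h4, neg_neg]
    · rw [neg_smul, ← h7, neg_neg]

theorem neg_mem_cone' {P : (Fin 2 → A) × (Fin 2 → A)} {v : Fin 2 → A} {e : A}
    (he : e = 1 ∨ e = -1) (hv : v ∈ cone S P) : e • (e • v) ∈ cone S P := by
  rwa [smul_smul, sgn_sq he, one_smul]

/-- a vertex of the front polygon, on its side of the edge `i` (index in one period) -/
theorem nu_mem_cD0 {i j : ℤ} (h1 : i < j) (h2 : j ≤ i + 2 * g) :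
    D.nu j ∈ cone S (D.cD i) := by
  rcases eq_or_lt_of_le h2 with rfl | h2
  · rw [D.nu_per]
    exact snd_mem_cone (D.cD i)
  rcases eq_or_lt_of_le (show i + 1 ≤ j by omega) with rfl | h3
  · exact fst_mem_cone (D.cD i)
  refine ⟨D.lei i * dt (D.nu i) (D.nu j), S.mul_mem (D.lei_mem _) (D.nu_pos _ _ h1 h2),
    D.lei i * dt (D.nu (i + 1)) (D.nu j),
    S.mul_mem (D.lei_mem _) (D.nu_pos _ _ h3 (by omega)), ?_⟩
  have h := D.lei_mul i
  simp only [dt] at h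
  funext k
  fin_cases k
  · simp only [Fin.zero_eta, cD, Pi.add_apply, Pi.smul_apply, Pi.neg_apply, smul_eq_mul, dt]
    linear_combination (-(D.nu j 0)) * h
  · simp only [Fin.mk_one, cD, Pi.add_apply, Pi.smul_apply, Pi.neg_apply, smul_eq_mul, dt]
    linear_combination (-(D.nu j 1)) * h

/-- representatives of an index in one period -/
theorem exists_rep (hg : 1 ≤ g) (i l : ℤ) : ∃ j t : ℤ, i < j ∧ j ≤ i + 2 * g ∧
    l = j + 2 * g * t := by
  have hpos : (0 : ℤ) < 2 * g := by omega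
  refine ⟨i + 1 + (l - i - 1) % (2 * g), (l - i - 1) / (2 * g), ?_, ?_, ?_⟩
  · have := Int.emod_nonneg (l - i - 1) (ne_of_gt hpos)
    omega
  · have := Int.emod_lt_of_pos (l - i - 1) hpos
    omega
  · have := Int.emod_add_mul_ediv (l - i - 1) (2 * g)
    linarith

theorem nu_mem_cD (hg : 1 ≤ g) (i l : ℤ) : ∃ e : A, (e = 1 ∨ e = -1) ∧
    e • D.nu l ∈ cone S (D.cD i) := by
  obtain ⟨j, t, h1, h2, rfl⟩ := exists_rep hg i l
  obtain ⟨e, he, h3, -⟩ := D.shift j t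
  refine ⟨e, he, ?_⟩
  rw [h3]
  exact neg_mem_cone' he (D.nu_mem_cD0 h1 h2)

theorem Mp_C_D (hg : 1 ≤ g) {i l : ℤ} (h : ¬ ((2 * g : ℤ) ∣ l - i)) :
    Mp S 1 (D.cC l) (D.cD i) := by
  obtain ⟨j, t, h1, h2, rfl⟩ := exists_rep hg i l
  obtain ⟨e, he, h3, h4, -⟩ := D.shift j t
  have h5 : j < i + 2 * g := by
    rcases eq_or_lt_of_le h2 with rfl | h5
    · exact absurd ⟨t + 1, by ring⟩ h
    · exact h5
  refine ⟨e, he, ?_, ?_⟩
  · rw [ac_one, cC, h3]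
    exact neg_mem_cone' he (D.nu_mem_cD0 h1 h2)
  · rw [ac_one, cC, h4]
    exact neg_mem_cone' he (D.nu_mem_cD0 (by omega) (by omega))

/-- a vertex of the back polygon, on its side of the edge `i` (index in one period) -/
theorem w_mem_cD0 {i j : ℤ} (h1 : i < j) (h2 : j ≤ i + 2 * g) :
    - D.w j ∈ cone S (D.cD' i) := by
  rcases eq_or_lt_of_le h2 with rfl | h2
  · rw [D.w_per, neg_neg]
    exact fst_mem_cone (D.cD' i)
  rcases eq_or_lt_of_le (show i + 1 ≤ j by omega) with rfl | h3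
  · exact snd_mem_cone (D.cD' i)
  refine ⟨D.mu i * D.lei i * dt (D.w j) (D.w (i + 1)),
    S.mul_mem (S.mul_mem (D.mu_mem _) (D.lei_mem _)) (D.w_pos _ _ h3 (by omega)),
    D.mu i * D.lei i * dt (D.w j) (D.w i),
    S.mul_mem (S.mul_mem (D.mu_mem _) (D.lei_mem _)) (D.w_pos _ _ h1 h2), ?_⟩
  have h := D.lei_mul i
  rw [← D.edge i] at h
  simp only [dt] at h
  funext k
  fin_cases k
  · simp only [Fin.zero_eta, cD', Pi.add_apply, Pi.smul_apply, Pi.neg_apply, smul_eq_mul, dt]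
    linear_combination (D.w j 0) * h
  · simp only [Fin.mk_one, cD', Pi.add_apply, Pi.smul_apply, Pi.neg_apply, smul_eq_mul, dt]
    linear_combination (D.w j 1) * h

theorem Mp_C_D' (hg : 1 ≤ g) {i l : ℤ} (h : ¬ ((2 * g : ℤ) ∣ l - i)) :
    Mp S 1 (D.cC' l) (D.cD' i) := by
  obtain ⟨j, t, h1, h2, rfl⟩ := exists_rep hg i l
  obtain ⟨e, he, -, -, h3, h4, -⟩ := D.shift j t
  have h5 : j < i + 2 * g := by
    rcases eq_or_lt_of_le h2 with rfl | h5
    · exact absurd ⟨t + 1, by ring⟩ h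
    · exact h5
  refine ⟨-e, ?_, ?_, ?_⟩
  · rcases he with rfl | rfl <;> simp
  · rw [ac_one, cC', h4, neg_smul, ← smul_neg, ← smul_neg]
    exact neg_mem_cone' he (D.w_mem_cD0 (by omega) (by omega))
  · rw [ac_one, cC', h3, neg_smul, ← smul_neg, ← smul_neg]
    exact neg_mem_cone' he (D.w_mem_cD0 h1 h2)

theorem Mp_G (j : ℤ) : Mp S (D.G j) (D.cD j) (D.cC' j) := by
  refine ⟨-1, Or.inr rfl, ?_, ?_⟩
  · rw [cD, G_nu', neg_one_smul, neg_neg]
    exact fst_mem_cone (D.cC' j)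
  · rw [cD, ac_neg, G_nu, neg_one_smul, neg_neg]
    exact cone_smul (snd_mem_cone (D.cC' j)) (D.mu_mem j)

theorem Mp_G_inv (j : ℤ) : Mp S (D.G j)⁻¹ (D.cD' j) (D.cC j) := by
  refine ⟨1, Or.inl rfl, ?_, ?_⟩
  · rw [cD', inv_G_w, one_smul]
    exact cone_smul (fst_mem_cone (D.cC j)) (D.mui_mem j)
  · rw [cD', ac_neg, inv_G_w', one_smul, neg_neg]
    exact snd_mem_cone (D.cC j)

/-- one pair of letters -/
theorem Mp_pair (hg : 1 ≤ g) {p q : ℤ} (h : ¬ ((2 * g : ℤ) ∣ q - p)) :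
    Mp S ((D.G p)⁻¹ * D.G q) (D.cD q) (D.cC p) := by
  have h1 := (D.Mp_G_inv p).comp ((D.Mp_C_D' hg h).comp (D.Mp_G q))
  rwa [one_mul] at h1

theorem Mp_J_C (hg : 2 ≤ g) (j : ℤ) : Mp S 1 (D.cJ j) (D.cC j) := by
  refine ⟨1, Or.inl rfl, ?_, ?_⟩
  · rw [ac_one, one_smul]
    exact fst_mem_cone (D.cC j)
  · rw [ac_one, one_smul, cJ, n]
    exact cone_smul (cone_add (snd_mem_cone (D.cC j))
      (cone_smul (fst_mem_cone (D.cC j)) (D.al_mem hg j))) (D.lei_mem j)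

theorem nu_eq_n (j : ℤ) : D.nu (j + 1) = D.le j • D.n j + D.al j • (- D.nu j) := by
  rw [n, smul_smul, le, D.lei_mul, one_smul]
  simp

theorem Mp_D_K (hg : 2 ≤ g) (j : ℤ) : Mp S 1 (D.cD j) (D.cK j) := by
  refine ⟨1, Or.inl rfl, ?_, ?_⟩
  · rw [ac_one, one_smul, cD, D.nu_eq_n]
    exact cone_add (cone_smul (fst_mem_cone (D.cK j)) (D.le_mem hg j))
      (cone_smul (snd_mem_cone (D.cK j)) (D.al_mem hg j))
  · rw [ac_one, one_smul]
    exact snd_mem_cone (D.cK j)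

theorem Mp_c_K (j : ℤ) : Mp S (D.c j) (D.cK j) (D.cK j) := by
  refine ⟨1, Or.inl rfl, ?_, ?_⟩
  · rw [cK, c_n, one_smul]
    exact cone_smul (fst_mem_cone (D.cK j)) (D.mui_mem j)
  · rw [cK, ac_neg, c_nu, one_smul, ← smul_neg]
    exact cone_smul (snd_mem_cone (D.cK j)) (D.mu_mem j)

theorem Mp_c_inv_K (j : ℤ) : Mp S (D.c j)⁻¹ (D.cK j) (D.cK j) := by
  refine ⟨1, Or.inl rfl, ?_, ?_⟩
  · rw [cK, inv_c_n, one_smul]
    exact cone_smul (fst_mem_cone (D.cK j)) (D.mu_mem j)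
  · rw [cK, ac_neg, inv_c_nu, one_smul, ← smul_neg]
    exact cone_smul (snd_mem_cone (D.cK j)) (D.mui_mem j)

theorem Mp_c_J (j : ℤ) : Mp S (D.c j) (D.cJ j) (D.cJ j) := by
  refine ⟨1, Or.inl rfl, ?_, ?_⟩
  · rw [cJ, c_nu, one_smul]
    exact cone_smul (fst_mem_cone (D.cJ j)) (D.mu_mem j)
  · rw [cJ, c_n, one_smul]
    exact cone_smul (snd_mem_cone (D.cJ j)) (D.mui_mem j)

theorem Mp_c_inv_J (j : ℤ) : Mp S (D.c j)⁻¹ (D.cJ j) (D.cJ j) := by
  refine ⟨1, Or.inl rfl, ?_, ?_⟩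
  · rw [cJ, inv_c_nu, one_smul]
    exact cone_smul (fst_mem_cone (D.cJ j)) (D.mui_mem j)
  · rw [cJ, inv_c_n, one_smul]
    exact cone_smul (snd_mem_cone (D.cJ j)) (D.mu_mem j)

theorem Mp_B (i : ℤ) : Mp S (D.B i) (D.cK (2 * i)) (D.cJ (2 * i + 1)) := by
  refine ⟨1, Or.inl rfl, ?_, ?_⟩
  · rw [cK, B_n, one_smul]
    exact cone_smul (fst_mem_cone (D.cJ (2 * i + 1))) (D.r_mem i)
  · rw [cK, ac_neg, B_nu, one_smul, neg_neg]
    exact cone_smul (snd_mem_cone (D.cJ (2 * i + 1))) (D.ri_mem i)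

theorem Mp_B_inv (i : ℤ) : Mp S (D.B i)⁻¹ (D.cK (2 * i + 1)) (D.cJ (2 * i)) := by
  refine ⟨-1, Or.inr rfl, ?_, ?_⟩
  · rw [cK, inv_B_n, neg_one_smul, neg_neg]
    exact cone_smul (fst_mem_cone (D.cJ (2 * i))) (D.r_mem i)
  · rw [cK, ac_neg, inv_B_nu, neg_one_smul, neg_neg]
    exact cone_smul (snd_mem_cone (D.cJ (2 * i))) (D.ri_mem i)

end Dat

end Pool.Agent.ToC
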