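import Pool.Agent.Lib.MP_305fdd_al.To.Ch.Basic

/-!
# MP_305fdd_al, torsion room: change of the ring of a chart datum
-/

set_option autoImplicit false

namespace Pool.Agent.ToC

open Matrix Pool.Agent.Su

variable {A B : Type} [CommRing A] [CommRing B]

/-- change of the ring for vectors -/
def vm (f : A →+* B) (v : Fin 2 → A) : Fin 2 → B := fun i => f (v i)

@[simp] theorem vm_apply (f : A →+* B) (v : Fin 2 → A) (i : Fin 2) : vm f v i = f (v i) := rfl

theorem vm_neg (f : A →+* B) (v : Fin 2 → A) : vm f (-v) = - vm f v := by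
  funext i; simp

theorem vm_add (f : A →+* B) (u v : Fin 2 → A) : vm f (u + v) = vm f u + vm f v := by
  funext i; simp

theorem vm_smul (f : A →+* B) (a : A) (v : Fin 2 → A) : vm f (a • v) = f a • vm f v := by
  funext i; simp

theorem dt_vm (f : A →+* B) (u v : Fin 2 → A) : dt (vm f u) (vm f v) = f (dt u v) := by
  simp only [dt, vm_apply, map_sub, map_mul]

/-- change of the ring for matrices -/
abbrev sm (f : A →+* B) : SpecialLinearGroup (Fin 2) A →* SpecialLinearGroup (Fin 2) B :=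
  SpecialLinearGroup.map f

theorem sm_apply (f : A →+* B) (M : SpecialLinearGroup (Fin 2) A) (i j : Fin 2) :
    (sm f M).1 i j = f (M.1 i j) := rfl

theorem ac_vm (f : A →+* B) (M : SpecialLinearGroup (Fin 2) A) (v : Fin 2 → A) :
    ac (sm f M) (vm f v) = vm f (ac M v) := by
  funext i
  fin_cases i
  · simp only [Fin.zero_eta, ac_zero_apply, vm_apply, sm_apply, map_add, map_mul]
  · simp only [Fin.mk_one, ac_one_apply, vm_apply, sm_apply, map_add, map_mul]

theorem tr_sm (f : A →+* B) (M : SpecialLinearGroup (Fin 2) A) :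
    (sm f M).1.trace = f M.1.trace := by
  rw [trace_fin_two, trace_fin_two, map_add, sm_apply, sm_apply]

theorem sm_neg (f : A →+* B) (M : SpecialLinearGroup (Fin 2) A) : sm f (-M) = - sm f M := by
  apply Subtype.ext
  ext i j
  have h1 : (-M).1 i j = - M.1 i j := rfl
  have h2 : (-(sm f M)).1 i j = - (sm f M).1 i j := rfl
  rw [sm_apply, h1, h2, sm_apply, map_neg]

variable {S : Subsemiring A} {T : Subsemiring B} {g : ℕ}

namespace Dat

/-- change of the ring -/
def map (D : Dat S g) (f : A →+* B) (hf : ∀ x ∈ S, f x ∈ T) : Dat T g where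
  nu j := vm f (D.nu j)
  w j := vm f (D.w j)
  mu j := f (D.mu j)
  mui j := f (D.mui j)
  dl j := f (D.dl j)
  lei j := f (D.lei j)
  r j := f (D.r j)
  ri j := f (D.ri j)
  nu_per j := by rw [D.nu_per, vm_neg]
  w_per j := by rw [D.w_per, vm_neg]
  mu_per j := by rw [D.mu_per]
  mu_pair i := by rw [D.mu_pair]
  nu_pos i j h1 h2 := by rw [dt_vm]; exact hf _ (D.nu_pos i j h1 h2)
  w_pos i j h1 h2 := by rw [dt_vm]; exact hf _ (D.w_pos i j h1 h2)
  edge j := by rw [dt_vm, dt_vm, ← map_mul, D.edge]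
  lei_mul j := by rw [dt_vm, ← map_mul, D.lei_mul, map_one]
  lei_mem j := hf _ (D.lei_mem j)
  mu_mem j := hf _ (D.mu_mem j)
  mui_mem j := hf _ (D.mui_mem j)
  mu_mul j := by rw [← map_mul, D.mu_mul, map_one]
  dl_mem j := hf _ (D.dl_mem j)
  dl_mul j := by rw [← map_sub, ← map_mul, D.dl_mul, map_one]
  r_mem j := hf _ (D.r_mem j)
  ri_mem j := hf _ (D.ri_mem j)
  r_mul j := by rw [← map_mul, D.r_mul, map_one]

variable (D : Dat S g) (f : A →+* B) (hf : ∀ x ∈ S, f x ∈ T)

@[simp] theorem map_nu (j : ℤ) : (D.map f hf).nu j = vm f (D.nu j) := rfl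
@[simp] theorem map_w (j : ℤ) : (D.map f hf).w j = vm f (D.w j) := rfl
@[simp] theorem map_mu (j : ℤ) : (D.map f hf).mu j = f (D.mu j) := rfl
@[simp] theorem map_mui (j : ℤ) : (D.map f hf).mui j = f (D.mui j) := rfl
@[simp] theorem map_dl (j : ℤ) : (D.map f hf).dl j = f (D.dl j) := rfl
@[simp] theorem map_lei (j : ℤ) : (D.map f hf).lei j = f (D.lei j) := rfl
@[simp] theorem map_r (j : ℤ) : (D.map f hf).r j = f (D.r j) := rfl
@[simp] theorem map_ri (j : ℤ) : (D.map f hf).ri j = f (D.ri j) := rfl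

theorem map_G (j : ℤ) : (D.map f hf).G j = sm f (D.G j) := by
  refine sl_ext ((D.map f hf).lei_mul j) ?_ ?_
  · rw [G_nu, map_nu, ac_vm, G_nu, vm_smul]
    rfl
  · rw [G_nu', map_nu, ac_vm, G_nu', vm_neg]
    rfl

theorem map_c (j : ℤ) : (D.map f hf).c j = sm f (D.c j) := by
  rw [c, c, map_G, map_G, sm_neg, map_mul, map_inv]

theorem map_al (j : ℤ) : (D.map f hf).al j = f (D.al j) := by
  rw [al, al, map_c, map_nu, ac_vm, dt_vm, map_mul, map_mul]
  rfl

theorem map_n (j : ℤ) : (D.map f hf).n j = vm f (D.n j) := by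
  rw [n, n, map_al, vm_smul, vm_add, vm_smul]
  rfl

theorem map_B (i : ℤ) : (D.map f hf).B i = sm f (D.B i) := by
  refine sl_ext (p := (D.map f hf).n (2 * i)) (q := (D.map f hf).nu (2 * i)) (u := -1)
    (by rw [dt_n_nu]; ring) ?_ ?_
  · rw [B_n, map_n, ac_vm, B_n, vm_smul]
    rfl
  · rw [B_nu, map_nu, ac_vm, B_nu, vm_neg, vm_smul, map_n]
    rfl

/-- the representation of a datum commutes with the change of the ring -/
theorem map_rho : (D.map f hf).rho = (sm f).comp D.rho := by
  refine surf_ext (fun i => ?_) (fun i => ?_)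
  · rw [rho_a, MonoidHom.comp_apply, rho_a, map_c]
  · rw [rho_b, MonoidHom.comp_apply, rho_b, map_B]

theorem rho_map (x : SurfaceGroup g) : (D.map f hf).rho x = sm f (D.rho x) := by
  rw [map_rho]; rfl

end Dat

end Pool.Agent.ToC
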