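import Mathlib.Analysis.Real.Sqrt
import Mathlib.Algebra.Ring.Int.Parity
import Pool.Agent.Lib.MP_305fdd_al.To.Ch.Map

/-!
# MP_305fdd_al, torsion room: the midpoint of two chart data

`S3` is the semiring of the triples `(x, y, m)` of nonnegative real numbers with `m ^ 2 ≤ x * y`.  Two chart
data over the real numbers are the first two components of a chart datum over `S3`.
-/

set_option autoImplicit false

namespace Pool.Agent.ToC

open Matrix Pool.Agent.Su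

/-! ## Fans -/

section fan

variable {A : Type} [CommRing A] {S : Subsemiring A}

/-- in a fan with the top `v` the determinants of two vertices are positive -/
theorem fan_mem (v : Fin 2 → A) (nu : ℕ → Fin 2 → A) (di : ℕ → A) (k : ℕ)
    (h1 : ∀ j, 1 ≤ j → j < k → dt v (nu j) ∈ S) (h2 : ∀ j, 1 ≤ j → j < k → di j ∈ S)
    (h3 : ∀ j, 1 ≤ j → j < k → dt v (nu j) * di j = 1)
    (h4 : ∀ j, 1 ≤ j → j + 1 < k → dt (nu j) (nu (j + 1)) ∈ S) {i : ℕ} (hi : 1 ≤ i) :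
    ∀ j, i < j → j < k → dt (nu i) (nu j) ∈ S := by
  intro j hij
  induction j, hij using Nat.le_induction with
  | base =>
    intro hk
    exact h4 i hi hk
  | succ j hj ih =>
    intro hk
    have hj1 : i < j := hj
    have e1 := plucker v (nu i) (nu j) (nu (j + 1))
    have e2 := h3 j (by omega) (by omega)
    have e3 : dt (nu i) (nu (j + 1)) = dt v (nu i) * di j * dt (nu j) (nu (j + 1)) +
        dt v (nu (j + 1)) * di j * dt (nu i) (nu j) := by
      linear_combination (-(dt (nu i) (nu (j + 1)))) * e2 - (di j) * e1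
    rw [e3]
    exact S.add_mem (S.mul_mem (S.mul_mem (h1 i hi (by omega)) (h2 j (by omega) (by omega)))
      (h4 j (by omega) hk)) (S.mul_mem (S.mul_mem (h1 (j + 1) (by omega) hk)
      (h2 j (by omega) (by omega))) (ih (by omega)))

/-- antiperiodic sequences: shift by a multiple of the period -/
theorem ap_shift {k : ℕ} {nu : ℤ → Fin 2 → A} (hp : ∀ j, nu (j + k) = - nu j) (t : ℤ) :
    ∃ e : A, e * e = 1 ∧ ∀ j, nu (j + k * t) = e • nu j := by
  induction t using Int.induction_on with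
  | zero => exact ⟨1, by ring, fun j => by simp⟩
  | succ t ih =>
    obtain ⟨e, he, h⟩ := ih
    refine ⟨-e, by rw [← he]; ring, fun j => ?_⟩
    rw [show j + (k : ℤ) * ((t : ℤ) + 1) = (j + k * t) + k by ring, hp, h, neg_smul]
  | pred t ih =>
    obtain ⟨e, he, h⟩ := ih
    refine ⟨-e, by rw [← he]; ring, fun j => ?_⟩
    have h1 := hp (j + k * (-(t : ℤ) - 1))
    rw [show j + (k : ℤ) * (-(t : ℤ) - 1) + k = j + k * (-(t : ℤ)) by ring, h] at h1
    rw [neg_smul, h1, neg_neg]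

/-- for an antiperiodic sequence it is enough to consider one period -/
theorem ap_mem {k : ℕ} (hk : 0 < k) {nu : ℤ → Fin 2 → A} (hp : ∀ j, nu (j + k) = - nu j)
    (h : ∀ i j : ℕ, i < j → j < k → dt (nu i) (nu j) ∈ S) (i j : ℤ) (hij : i < j)
    (hj : j < i + k) : dt (nu i) (nu j) ∈ S := by
  have hk' : (0 : ℤ) < k := by exact_mod_cast hk
  obtain ⟨e, he, hs⟩ := ap_shift hp (-(i / k))
  have e1 := Int.emod_add_mul_ediv i k
  have e2 := Int.emod_nonneg i (ne_of_gt hk')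
  have e3 := Int.emod_lt_of_pos i hk'
  obtain ⟨p, hp1⟩ := Int.eq_ofNat_of_zero_le e2
  have e4 : i + k * (-(i / k)) = (p : ℤ) := by rw [← hp1]; linarith
  obtain ⟨q, hq⟩ := Int.eq_ofNat_of_zero_le (show 0 ≤ j + k * (-(i / k)) by
    have : i + k * (-(i / k)) = i % k := by linarith
    linarith)
  have e5 : dt (nu i) (nu j) = dt (nu p) (nu q) := by
    rw [← e4, ← hq, hs, hs, dt_smul_left, dt_smul_right, ← mul_assoc, he, one_mul]
  have hpk : p < k := by
    have : (p : ℤ) < k := by rw [← hp1]; exact e3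
    exact_mod_cast this
  have hpq : p < q := by
    have : (p : ℤ) < q := by rw [← e4, ← hq]; linarith
    exact_mod_cast this
  have hqk : q < p + k := by
    have : (q : ℤ) < p + k := by rw [← e4, ← hq]; linarith
    exact_mod_cast this
  rw [e5]
  by_cases hc : q < k
  · exact h p q hpq hc
  · have e6 : nu q = - nu ((q - k : ℕ) : ℤ) := by
      rw [← hp, Nat.cast_sub (by omega), sub_add_cancel]
    rcases Nat.eq_or_lt_of_le (show q - k ≤ p by omega) with h7 | h7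
    · omega
    · rw [e6, dt_neg_right, ← dt_swap]
      exact h _ _ h7 hpk

end fan

/-! ## Positive antiperiodic sequences of real vectors -/

/-- positive antiperiodic sequences -/
structure Pol (k : ℕ) (nu : ℤ → Fin 2 → ℝ) : Prop where
  per : ∀ j, nu (j + k) = - nu j
  pos : ∀ i j : ℤ, i < j → j < i + k → 0 < dt (nu i) (nu j)

/-- the antiperiodic extension -/
noncomputable def ext (k : ℕ) (v : ℕ → Fin 2 → ℝ) (j : ℤ) : Fin 2 → ℝ :=
  if Even (j / k) then v (j % k).toNat else - v (j % k).toNat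

theorem ext_per {k : ℕ} (hk : 0 < k) (v : ℕ → Fin 2 → ℝ) (j : ℤ) :
    ext k v (j + k) = - ext k v j := by
  have hk' : (k : ℤ) ≠ 0 := by exact_mod_cast (ne_of_gt hk)
  unfold ext
  rw [Int.add_emod_right, show (j + k) / (k : ℤ) = j / k + 1 by
    rw [Int.add_ediv_of_dvd_right (dvd_refl _), Int.ediv_self hk']]
  by_cases h : Even (j / k)
  · rw [if_neg (fun h2 => Int.even_add_one.mp h2 h), if_pos h]
  · rw [if_pos (Int.even_add_one.mpr h), if_neg h, neg_neg]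

theorem ext_nat {k : ℕ} (v : ℕ → Fin 2 → ℝ) {j : ℕ} (hj : j < k) : ext k v j = v j := by
  unfold ext
  have h1 : ((j : ℤ) / (k : ℤ)) = 0 := by
    rw [← Int.natCast_div, Nat.div_eq_of_lt hj]
    rfl
  have h2 : ((j : ℤ) % (k : ℤ)) = j := by
    rw [← Int.natCast_mod, Nat.mod_eq_of_lt hj]
  rw [h1, h2, if_pos (by simp)]
  rfl

/-- the first coordinates of the vertices of a fan -/
noncomputable def fx (d e : ℕ → ℝ) : ℕ → ℝ
  | 0 => 1
  | 1 => 0
  | (j + 2) => (fx d e (j + 1) * d (j + 2) - e (j + 1)) / d (j + 1)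

/-- a fan with given determinants -/
noncomputable def fv (d e : ℕ → ℝ) : ℕ → Fin 2 → ℝ
  | 0 => ![1, 0]
  | (j + 1) => ![fx d e (j + 1), d (j + 1)]

theorem dt_fv_zero (d e : ℕ → ℝ) (j : ℕ) : dt (fv d e 0) (fv d e (j + 1)) = d (j + 1) := by
  simp [dt, fv]

theorem dt_fv_succ (d e : ℕ → ℝ) (j : ℕ) (h : d (j + 1) ≠ 0) :
    dt (fv d e (j + 1)) (fv d e (j + 2)) = e (j + 1) := by
  have h1 : fx d e (j + 2) = (fx d e (j + 1) * d (j + 2) - e (j + 1)) / d (j + 1) := rfl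
  simp only [dt, fv, cons_val_zero, cons_val_one]
  rw [h1]
  field_simp
  ring

/-! ## The two semirings -/

/-- the nonnegative real numbers -/
def NN : Subsemiring ℝ where
  carrier := {x | 0 ≤ x}
  mul_mem' := by
    intro a b ha hb
    exact mul_nonneg (show (0 : ℝ) ≤ a from ha) (show (0 : ℝ) ≤ b from hb)
  one_mem' := show (0 : ℝ) ≤ 1 from zero_le_one
  add_mem' := by
    intro a b ha hb
    exact add_nonneg (show (0 : ℝ) ≤ a from ha) (show (0 : ℝ) ≤ b from hb)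
  zero_mem' := show (0 : ℝ) ≤ 0 from le_refl (0 : ℝ)

theorem mem_NN {x : ℝ} : x ∈ NN ↔ 0 ≤ x := Iff.rfl

/-- triples of real numbers -/
abbrev A3 := ℝ × ℝ × ℝ

/-- the triples `(x, y, m)` of nonnegative real numbers with `m ^ 2 ≤ x * y` -/
def S3 : Subsemiring A3 where
  carrier := {p | 0 ≤ p.1 ∧ 0 ≤ p.2.1 ∧ 0 ≤ p.2.2 ∧ p.2.2 ^ 2 ≤ p.1 * p.2.1}
  mul_mem' := by
    rintro ⟨x, y, m⟩ ⟨x', y', m'⟩ ⟨h1, h2, h3, h4⟩ ⟨h1', h2', h3', h4'⟩
    refine ⟨mul_nonneg h1 h1', mul_nonneg h2 h2', mul_nonneg h3 h3', ?_⟩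
    change (m * m') ^ 2 ≤ (x * x') * (y * y')
    calc (m * m') ^ 2 = m ^ 2 * m' ^ 2 := by ring
      _ ≤ (x * y) * (x' * y') := mul_le_mul h4 h4' (sq_nonneg _) (mul_nonneg h1 h2)
      _ = (x * x') * (y * y') := by ring
  one_mem' := ⟨zero_le_one, zero_le_one, zero_le_one, by change (1 : ℝ) ^ 2 ≤ 1 * 1; norm_num⟩
  add_mem' := by
    rintro ⟨x, y, m⟩ ⟨x', y', m'⟩ ⟨h1, h2, h3, h4⟩ ⟨h1', h2', h3', h4'⟩
    refine ⟨add_nonneg h1 h1', add_nonneg h2 h2', add_nonneg h3 h3', ?_⟩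
    change (m + m') ^ 2 ≤ (x + x') * (y + y')
    simp only at h1 h2 h3 h4 h1' h2' h3' h4'
    have h5 : (m * m') ^ 2 ≤ (x * y') * (x' * y) := by
      calc (m * m') ^ 2 = m ^ 2 * m' ^ 2 := by ring
        _ ≤ (x * y) * (x' * y') := mul_le_mul h4 h4' (sq_nonneg _) (mul_nonneg h1 h2)
        _ = (x * y') * (x' * y) := by ring
    have h6 : (2 * (m * m')) ^ 2 ≤ (x * y' + x' * y) ^ 2 := by
      nlinarith [sq_nonneg (x * y' - x' * y)]
    have h7 : 2 * (m * m') ≤ x * y' + x' * y :=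
      (abs_le_of_sq_le_sq' h6 (add_nonneg (mul_nonneg h1 h2') (mul_nonneg h1' h2))).2
    nlinarith
  zero_mem' := ⟨le_refl _, le_refl _, le_refl _, by change (0 : ℝ) ^ 2 ≤ 0 * 0; norm_num⟩

theorem mem_S3 {x y m : ℝ} : ((x, y, m) : A3) ∈ S3 ↔ 0 ≤ x ∧ 0 ≤ y ∧ 0 ≤ m ∧ m ^ 2 ≤ x * y :=
  Iff.rfl

/-- the geometric mean is in the cone -/
theorem sqrt_mem {x y : ℝ} (hx : 0 ≤ x) (hy : 0 ≤ y) : ((x, y, √(x * y)) : A3) ∈ S3 :=
  ⟨hx, hy, Real.sqrt_nonneg _, le_of_eq (Real.sq_sqrt (mul_nonneg hx hy))⟩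

/-- a vector of triples -/
def v3 (a b c : Fin 2 → ℝ) : Fin 2 → A3 := fun i => (a i, b i, c i)

theorem dt_v3 (a b c a' b' c' : Fin 2 → ℝ) :
    dt (v3 a b c) (v3 a' b' c') = (dt a a', dt b b', dt c c') := rfl

theorem v3_neg (a b c : Fin 2 → ℝ) : v3 (-a) (-b) (-c) = - v3 a b c := rfl

/-- the determinants of the real sequences are positive -/
theorem Pol.of_le {k : ℕ} {nu : ℤ → Fin 2 → ℝ} (hp : ∀ j, nu (j + k) = - nu j)
    (h : ∀ i j : ℤ, i < j → j < i + k → 0 ≤ dt (nu i) (nu j))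
    (he : ∀ j, 0 < dt (nu j) (nu (j + 1))) : Pol k nu := by
  refine ⟨hp, fun i j hij hj => ?_⟩
  rcases eq_or_lt_of_le (show i + 1 ≤ j by omega) with rfl | h1
  · exact he i
  rcases eq_or_lt_of_le (show j + 1 ≤ i + k by omega) with h2 | h2
  · have h3 := he j
    rw [h2, hp, dt_neg_right, ← dt_swap] at h3
    exact h3
  · refine lt_of_le_of_ne (h i j hij hj) (fun h0 => ?_)
    have e1 := plucker (nu i) (nu (i + 1)) (nu j) (nu (j + 1))
    have e2 := mul_pos (he i) (he j)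
    have e3 := mul_nonneg (h i (j + 1) (by omega) h2) (h (i + 1) j h1 (by omega))
    rw [← h0] at e1
    nlinarith

/-- THE MEAN of two positive antiperiodic sequences -/
theorem exists_mean {k : ℕ} (hk : 2 ≤ k) {p q : ℤ → Fin 2 → ℝ} (hp : Pol k p) (hq : Pol k q) :
    ∃ m : ℤ → Fin 2 → ℝ, (∀ j, m (j + k) = - m j) ∧
      (∀ i j : ℤ, i < j → j < i + k →
        ((dt (p i) (p j), dt (q i) (q j), dt (m i) (m j)) : A3) ∈ S3) ∧
      ∀ j, dt (m j) (m (j + 1)) = √(dt (p j) (p (j + 1)) * dt (q j) (q (j + 1))) := by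
  set d : ℕ → ℝ := fun j => √(dt (p 0) (p j) * dt (q 0) (q j)) with hd
  set e : ℕ → ℝ := fun j => √(dt (p j) (p (j + 1)) * dt (q j) (q (j + 1))) with he
  have hpd : ∀ j : ℕ, 1 ≤ j → j < k → 0 < dt (p 0) (p j) := fun j h1 h2 =>
    hp.pos 0 j (by omega) (by omega)
  have hqd : ∀ j : ℕ, 1 ≤ j → j < k → 0 < dt (q 0) (q j) := fun j h1 h2 =>
    hq.pos 0 j (by omega) (by omega)
  have hdp : ∀ j : ℕ, 1 ≤ j → j < k → 0 < d j := fun j h1 h2 =>
    Real.sqrt_pos.mpr (mul_pos (hpd j h1 h2) (hqd j h1 h2))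
  have hm : ∀ j : ℕ, j < k → ext k (fv d e) j = fv d e j := fun j hj => ext_nat _ hj
  have hper : ∀ j, ext k (fv d e) (j + k) = - ext k (fv d e) j := ext_per (by omega) _
  have h0 : ∀ j : ℕ, 1 ≤ j → j < k → dt (fv d e 0) (fv d e j) = d j := by
    intro j h1 h2
    obtain ⟨j, rfl⟩ := Nat.exists_eq_add_of_le' h1
    exact dt_fv_zero d e j
  have hedge : ∀ j : ℕ, 1 ≤ j → j + 1 < k → dt (fv d e j) (fv d e (j + 1)) = e j := by
    intro j h1 h2
    obtain ⟨j, rfl⟩ := Nat.exists_eq_add_of_le' h1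
    exact dt_fv_succ d e j (ne_of_gt (hdp (j + 1) (by omega) (by omega)))
  have hfan : ∀ i j : ℕ, i < j → j < k →
      ((dt (p i) (p j), dt (q i) (q j), dt (fv d e i) (fv d e j)) : A3) ∈ S3 := by
    intro i j hij hj
    rcases Nat.eq_zero_or_pos i with rfl | hi
    · rw [h0 j (by omega) hj]
      exact sqrt_mem (hpd j (by omega) hj).le (hqd j (by omega) hj).le
    · refine fan_mem (v3 (p 0) (q 0) (fv d e 0)) (fun j : ℕ => v3 (p j) (q j) (fv d e j))
        (fun j => ((dt (p 0) (p j))⁻¹, (dt (q 0) (q j))⁻¹, (d j)⁻¹)) k ?_ ?_ ?_ ?_ hi j hij hj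
      · intro j h1 h2
        rw [dt_v3, h0 j h1 h2]
        exact sqrt_mem (hpd j h1 h2).le (hqd j h1 h2).le
      · intro j h1 h2
        have e1 := hpd j h1 h2
        have e2 := hqd j h1 h2
        refine mem_S3.mpr ⟨(inv_pos.mpr e1).le, (inv_pos.mpr e2).le,
          (inv_pos.mpr (hdp j h1 h2)).le, ?_⟩
        rw [inv_pow, hd, Real.sq_sqrt (mul_pos e1 e2).le, mul_inv]
      · intro j h1 h2
        rw [dt_v3, h0 j h1 h2, Prod.mk_mul_mk, Prod.mk_mul_mk,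
          mul_inv_cancel₀ (hpd j h1 h2).ne', mul_inv_cancel₀ (hqd j h1 h2).ne',
          mul_inv_cancel₀ (hdp j h1 h2).ne']
        rfl
      · intro j h1 h2
        simp only [dt_v3]
        rw [hedge j h1 h2]
        have e1 := hp.pos j (j + 1) (by omega) (by omega)
        have e2 := hq.pos j (j + 1) (by omega) (by omega)
        have e3 := sqrt_mem e1.le e2.le
        exact_mod_cast e3
  refine ⟨ext k (fv d e), hper, ?_, ?_⟩
  · intro i j hij hj
    refine ap_mem (by omega) (nu := fun j => v3 (p j) (q j) (ext k (fv d e) j)) ?_ ?_ i j hij hj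
    · intro j
      rw [hp.per, hq.per, hper, v3_neg]
    · intro i j hij hj
      simp only [dt_v3]
      rw [hm i (by omega), hm j hj]
      exact hfan i j hij hj
  · -- the edges
    have key : ∀ j : ℕ, j < k → dt (ext k (fv d e) j) (ext k (fv d e) (j + 1)) =
        √(dt (p j) (p (j + 1)) * dt (q j) (q (j + 1))) := by
      intro j hj
      rcases Nat.eq_zero_or_pos j with rfl | h1
      · have e1 := hm 0 (by omega)
        have e2 := hm 1 (by omega)
        have e3 := h0 1 (le_refl _) (by omega)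
        rw [Nat.cast_zero] at e1
        rw [Nat.cast_one] at e2
        rw [Nat.cast_zero, zero_add, e1, e2, e3, hd]
        simp
      · rcases Nat.eq_or_lt_of_le (show j + 1 ≤ k by omega) with h2 | h2
        · have e1 : ((j : ℤ) + 1) = (0 : ℤ) + k := by rw [← h2]; push_cast; ring
          have e2 := hm 0 (by omega)
          rw [Nat.cast_zero] at e2
          rw [e1, hper, hp.per, hq.per, dt_neg_right, dt_neg_right, dt_neg_right, ← dt_swap,
            ← dt_swap, ← dt_swap, e2, hm j hj, h0 j h1 hj]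
        · have e1 := hm (j + 1) h2
          rw [Nat.cast_add, Nat.cast_one] at e1
          rw [e1, hm j hj, hedge j h1 h2]
    intro j
    have hk' : (0 : ℤ) < k := by omega
    have e2 := Int.emod_nonneg j (ne_of_gt hk')
    have e3 := Int.emod_lt_of_pos j hk'
    obtain ⟨l, hl⟩ := Int.eq_ofNat_of_zero_le e2
    have e4 : j = (l : ℤ) + k * (j / k) := by
      rw [← hl]
      exact (Int.emod_add_mul_ediv j k).symm
    have e5 := key l (by omega)
    obtain ⟨a, ha, h1⟩ := ap_shift (k := k) (nu := fun j => v3 (p j) (q j) (ext k (fv d e) j))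
      (by intro j; rw [hp.per, hq.per, hper, v3_neg]) (j / k)
    have e6 : dt (v3 (p j) (q j) (ext k (fv d e) j))
        (v3 (p (j + 1)) (q (j + 1)) (ext k (fv d e) (j + 1))) =
        dt (v3 (p l) (q l) (ext k (fv d e) l))
        (v3 (p (l + 1)) (q (l + 1)) (ext k (fv d e) (l + 1))) := by
      have e7 := h1 l
      have e8 := h1 (l + 1)
      rw [← e4] at e7
      rw [show (l : ℤ) + 1 + k * (j / k) = j + 1 by
        rw [add_right_comm, ← e4]] at e8
      rw [e7, e8, dt_smul_left, dt_smul_right, ← mul_assoc, ha, one_mul]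
    rw [dt_v3, dt_v3, Prod.mk.injEq, Prod.mk.injEq] at e6
    obtain ⟨f1, f2, f3⟩ := e6
    rw [f1, f2, f3, e5]

/-! ## The midpoint datum -/

section real

variable {g : ℕ} (D : Dat NN g)

theorem Dat.le_pos (j : ℤ) (hg : 1 ≤ g) : 0 < dt (D.nu j) (D.nu (j + 1)) := by
  have h1 : 0 ≤ dt (D.nu j) (D.nu (j + 1)) := D.nu_pos j (j + 1) (by omega) (by omega)
  refine lt_of_le_of_ne h1 (fun h0 => ?_)
  have h2 := D.lei_mul j
  rw [← h0, zero_mul] at h2
  exact zero_ne_one h2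

theorem Dat.mu_pos (j : ℤ) : 0 < D.mu j := by
  have h1 : 0 ≤ D.mu j := D.mu_mem j
  refine lt_of_le_of_ne h1 (fun h0 => ?_)
  have h2 := D.mu_mul j
  rw [← h0, zero_mul] at h2
  exact zero_ne_one h2

theorem Dat.mui_eq (j : ℤ) : D.mui j = (D.mu j)⁻¹ :=
  eq_inv_of_mul_eq_one_right (D.mu_mul j)

theorem Dat.r_pos (j : ℤ) : 0 < D.r j := by
  have h1 : 0 ≤ D.r j := D.r_mem j
  refine lt_of_le_of_ne h1 (fun h0 => ?_)
  have h2 := D.r_mul j
  rw [← h0, zero_mul] at h2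
  exact zero_ne_one h2

theorem Dat.ri_eq (j : ℤ) : D.ri j = (D.r j)⁻¹ :=
  eq_inv_of_mul_eq_one_right (D.r_mul j)

theorem Dat.one_lt_mu (j : ℤ) : 1 < D.mu j := by
  have h0 := D.mu_pos j
  have h1 : 0 ≤ D.dl j := D.dl_mem j
  have h2 := D.dl_mul j
  have h3 : 0 < D.mu j - D.mui j := by
    by_contra hc
    nlinarith
  have h4 := D.mu_mul j
  have h5 : 0 ≤ D.mui j := D.mui_mem j
  by_contra hc
  nlinarith

theorem Dat.dl_eq (j : ℤ) : D.dl j = (D.mu j - (D.mu j)⁻¹)⁻¹ := by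
  rw [← D.mui_eq]
  exact eq_inv_of_mul_eq_one_right (D.dl_mul j)

theorem Dat.w_edge_pos (j : ℤ) (hg : 1 ≤ g) : 0 < dt (D.w (j + 1)) (D.w j) := by
  have h1 : 0 ≤ dt (D.w (j + 1)) (D.w j) := D.w_pos j (j + 1) (by omega) (by omega)
  refine lt_of_le_of_ne h1 (fun h0 => ?_)
  have h2 := D.edge j
  rw [← h0, mul_zero] at h2
  exact (D.le_pos j hg).ne h2

/-- the front polygon -/
theorem Dat.pol_nu (hg : 1 ≤ g) : Pol (2 * g) D.nu :=
  Pol.of_le (fun j => by push_cast; exact D.nu_per j)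
    (fun i j h1 h2 => D.nu_pos i j h1 (by push_cast at h2; exact h2))
    (fun j => D.le_pos j hg)

/-- the back polygon, with the opposite orientation -/
theorem Dat.pol_w (hg : 1 ≤ g) : Pol (2 * g) (fun j => D.w (-j)) := by
  refine Pol.of_le (fun j => ?_) (fun i j h1 h2 => ?_) (fun j => ?_)
  · have h := D.w_per (-(j + (2 * g : ℕ)))
    rw [show -(j + ((2 * g : ℕ) : ℤ)) + 2 * g = -j by push_cast; ring] at h
    rw [h, neg_neg]
  · push_cast at h2
    exact D.w_pos (-j) (-i) (by omega) (by omega)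
  · have h := D.w_edge_pos (-(j + 1)) hg
    rwa [show -(j + 1) + 1 = -j by ring] at h

end real

/-- the first component -/
def f1 : A3 →+* ℝ := RingHom.fst ℝ (ℝ × ℝ)

/-- the second component -/
def f2 : A3 →+* ℝ := (RingHom.fst ℝ ℝ).comp (RingHom.snd ℝ (ℝ × ℝ))

/-- the third component -/
def f3 : A3 →+* ℝ := (RingHom.snd ℝ ℝ).comp (RingHom.snd ℝ (ℝ × ℝ))

theorem f1_mem : ∀ x ∈ S3, f1 x ∈ NN := fun _ h => h.1
theorem f2_mem : ∀ x ∈ S3, f2 x ∈ NN := fun _ h => h.2.1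
theorem f3_mem : ∀ x ∈ S3, f3 x ∈ NN := fun _ h => h.2.2.1

/-- the inequality for the eigenvalues -/
theorem mu_ineq {x y : ℝ} (hx : 1 < x) (hy : 1 < y) :
    (x - x⁻¹) * (y - y⁻¹) ≤ (√(x * y) - (√(x * y))⁻¹) ^ 2 := by
  have hx0 : 0 < x := by linarith
  have hy0 : 0 < y := by linarith
  have h1 : (√(x * y)) ^ 2 = x * y := Real.sq_sqrt (by positivity)
  have h2 : 0 < √(x * y) := Real.sqrt_pos.mpr (by positivity)
  have h3 : (√(x * y) - (√(x * y))⁻¹) ^ 2 = x * y - 2 + (x * y)⁻¹ := by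
    rw [sub_sq, h1, inv_pow, h1, mul_assoc, mul_inv_cancel₀ h2.ne']
    ring
  rw [h3]
  have h4 : x * y - 2 + (x * y)⁻¹ - (x - x⁻¹) * (y - y⁻¹) = (x - y) ^ 2 * (x * y)⁻¹ := by
    field_simp
    ring
  have h5 : 0 ≤ (x - y) ^ 2 * (x * y)⁻¹ := by positivity
  linarith

theorem one_lt_sqrt_mul {x y : ℝ} (hx : 1 < x) (hy : 1 < y) : 1 < √(x * y) := by
  rw [Real.lt_sqrt (by norm_num)]
  nlinarith

theorem sub_inv_pos {x : ℝ} (hx : 1 < x) : 0 < x - x⁻¹ := by
  have h1 : x⁻¹ < 1 := inv_lt_one_of_one_lt₀ hx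
  linarith

/-- the datum over the triples -/
theorem exists_trip {g : ℕ} (hg : 1 ≤ g) (D₁ D₂ : Dat NN g) :
    ∃ D : Dat S3 g, D.map f1 f1_mem = D₁ ∧ D.map f2 f2_mem = D₂ := by
  obtain ⟨m, hm1, hm2, hm3⟩ := exists_mean (by omega) (D₁.pol_nu hg) (D₂.pol_nu hg)
  obtain ⟨v, hv1, hv2, hv3⟩ := exists_mean (by omega) (D₁.pol_w hg) (D₂.pol_w hg)
  have hx := D₁.one_lt_mu
  have hy := D₂.one_lt_mu
  have hq : ∀ j, 1 < √(D₁.mu j * D₂.mu j) := fun j => one_lt_sqrt_mul (hx j) (hy j)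
  have hl1 := fun j => D₁.le_pos j hg
  have hl2 := fun j => D₂.le_pos j hg
  have hlm : ∀ j, 0 < dt (m j) (m (j + 1)) := fun j => by
    rw [hm3]; exact Real.sqrt_pos.mpr (mul_pos (hl1 j) (hl2 j))
  refine ⟨{
    nu := fun j => v3 (D₁.nu j) (D₂.nu j) (m j)
    w := fun j => v3 (D₁.w j) (D₂.w j) (v (-j))
    mu := fun j => (D₁.mu j, D₂.mu j, √(D₁.mu j * D₂.mu j))
    mui := fun j => (D₁.mui j, D₂.mui j, (√(D₁.mu j * D₂.mu j))⁻¹)
    dl := fun j => (D₁.dl j, D₂.dl j,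
      (√(D₁.mu j * D₂.mu j) - (√(D₁.mu j * D₂.mu j))⁻¹)⁻¹)
    lei := fun j => (D₁.lei j, D₂.lei j, (dt (m j) (m (j + 1)))⁻¹)
    r := fun j => (D₁.r j, D₂.r j, √(D₁.r j * D₂.r j))
    ri := fun j => (D₁.ri j, D₂.ri j, (√(D₁.r j * D₂.r j))⁻¹)
    nu_per := fun j => by
      have h := hm1 j
      push_cast at h
      rw [D₁.nu_per, D₂.nu_per, h, v3_neg]
    w_per := fun j => by
      have h := hv1 (-(j + 2 * g))
      rw [show -(j + 2 * (g : ℤ)) + ((2 * g : ℕ) : ℤ) = -j by push_cast; ring] at h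
      rw [D₁.w_per, D₂.w_per, h, ← v3_neg, neg_neg]
    mu_per := fun j => by rw [D₁.mu_per, D₂.mu_per]
    mu_pair := fun i => by rw [D₁.mu_pair, D₂.mu_pair]
    nu_pos := fun i j h1 h2 => hm2 i j h1 (by push_cast; exact h2)
    w_pos := fun i j h1 h2 => by
      have h := hv2 (-j) (-i) (by omega) (by push_cast; omega)
      simp only [neg_neg] at h
      exact h
    edge := ?_
    lei_mul := ?_
    lei_mem := ?_
    mu_mem := ?_
    mui_mem := ?_
    mu_mul := ?_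
    dl_mem := ?_
    dl_mul := ?_
    r_mem := ?_
    ri_mem := ?_
    r_mul := ?_ }, rfl, rfl⟩
  · intro j
    have h := hv3 (-(j + 1))
    rw [show -(j + 1) + 1 = -j by ring] at h
    simp only [neg_neg] at h
    rw [dt_v3, dt_v3, Prod.mk_mul_mk, Prod.mk_mul_mk, D₁.edge, D₂.edge, h, hm3, ← Real.sqrt_mul
      (mul_pos (D₁.mu_pos j) (D₂.mu_pos j)).le, ← D₁.edge, ← D₂.edge]
    congr 3
    ring
  · intro j
    rw [dt_v3, Prod.mk_mul_mk, Prod.mk_mul_mk, D₁.lei_mul, D₂.lei_mul,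
      mul_inv_cancel₀ (hlm j).ne']
    rfl
  · intro j
    refine mem_S3.mpr ⟨D₁.lei_mem j, D₂.lei_mem j, (inv_pos.mpr (hlm j)).le, ?_⟩
    have e1 : D₁.lei j = (dt (D₁.nu j) (D₁.nu (j + 1)))⁻¹ :=
      eq_inv_of_mul_eq_one_right (D₁.lei_mul j)
    have e2 : D₂.lei j = (dt (D₂.nu j) (D₂.nu (j + 1)))⁻¹ :=
      eq_inv_of_mul_eq_one_right (D₂.lei_mul j)
    rw [e1, e2, hm3, inv_pow, Real.sq_sqrt (mul_pos (hl1 j) (hl2 j)).le, mul_inv]
  · intro j
    exact sqrt_mem (D₁.mu_pos j).le (D₂.mu_pos j).le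
  · intro j
    have h := hq j
    refine mem_S3.mpr ⟨D₁.mui_mem j, D₂.mui_mem j, (inv_pos.mpr (by linarith)).le, ?_⟩
    rw [D₁.mui_eq, D₂.mui_eq, inv_pow,
      Real.sq_sqrt (mul_pos (D₁.mu_pos j) (D₂.mu_pos j)).le, mul_inv]
  · intro j
    have h := hq j
    rw [Prod.mk_mul_mk, Prod.mk_mul_mk, D₁.mu_mul, D₂.mu_mul,
      mul_inv_cancel₀ (by linarith : √(D₁.mu j * D₂.mu j) ≠ 0)]
    rfl
  · intro j
    refine mem_S3.mpr ⟨D₁.dl_mem j, D₂.dl_mem j, (inv_pos.mpr (sub_inv_pos (hq j))).le, ?_⟩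
    rw [D₁.dl_eq, D₂.dl_eq, inv_pow, ← mul_inv]
    exact inv_anti₀ (mul_pos (sub_inv_pos (hx j)) (sub_inv_pos (hy j))) (mu_ineq (hx j) (hy j))
  · intro j
    change ((D₁.mu j, D₂.mu j, √(D₁.mu j * D₂.mu j)) -
      (D₁.mui j, D₂.mui j, (√(D₁.mu j * D₂.mu j))⁻¹) : A3) * _ = 1
    rw [Prod.mk_sub_mk, Prod.mk_sub_mk, Prod.mk_mul_mk, Prod.mk_mul_mk, D₁.dl_mul, D₂.dl_mul,
      mul_inv_cancel₀ (sub_inv_pos (hq j)).ne']
    rfl
  · intro j
    exact sqrt_mem (D₁.r_pos j).le (D₂.r_pos j).le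
  · intro j
    have h := mul_pos (D₁.r_pos j) (D₂.r_pos j)
    refine mem_S3.mpr ⟨D₁.ri_mem j, D₂.ri_mem j, (inv_pos.mpr (Real.sqrt_pos.mpr h)).le, ?_⟩
    rw [D₁.ri_eq, D₂.ri_eq, inv_pow, Real.sq_sqrt h.le, mul_inv]
  · intro j
    have h := mul_pos (D₁.r_pos j) (D₂.r_pos j)
    rw [Prod.mk_mul_mk, Prod.mk_mul_mk, D₁.r_mul, D₂.r_mul,
      mul_inv_cancel₀ (Real.sqrt_pos.mpr h).ne']
    rfl

/-- THE MIDPOINT THEOREM (traces), from the positivity theorem over the triples -/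
theorem exists_mid {g : ℕ} (hg : 1 ≤ g) (hpos : ∀ (D : Dat S3 g) (x : SurfaceGroup g),
    ∃ e : A3, (e = 1 ∨ e = -1) ∧ e * (D.rho x).1.trace ∈ S3) (D₁ D₂ : Dat NN g) :
    ∃ D : Dat NN g, ∀ x : SurfaceGroup g,
      (D.rho x).1.trace ^ 2 ≤ (D₁.rho x).1.trace * (D₂.rho x).1.trace := by
  obtain ⟨D, h1, h2⟩ := exists_trip hg D₁ D₂
  refine ⟨D.map f3 f3_mem, fun x => ?_⟩
  rw [← h1, ← h2, Dat.rho_map, Dat.rho_map, Dat.rho_map, tr_sm, tr_sm, tr_sm]
  obtain ⟨e, he, hm⟩ := hpos D x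
  obtain ⟨-, -, -, h3⟩ := hm
  change ((D.rho x).1.trace).2.2 ^ 2 ≤ ((D.rho x).1.trace).1 * ((D.rho x).1.trace).2.1
  rcases he with rfl | rfl
  · rwa [one_mul] at h3
  · rw [neg_one_mul] at h3
    simp only [Prod.fst_neg, Prod.snd_neg, neg_sq, neg_mul_neg] at h3
    exact h3

end Pool.Agent.ToC
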