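import Pool.Agent.Lib.MP_305fdd_al.To.Ch.Pos
import Pool.Agent.Lib.MP_305fdd_al.Su.Surf

/-!
# MP_305fdd_al, torsion room: the elements `c_j`, `G_j` of the surface group
-/

set_option autoImplicit false

namespace Pool.Agent.ToC

open Matrix Pool.Agent.Su

section

variable (g : ℕ)

/-- `c_(2i) = a_i`, `c_(2i+1) = b_i a_i⁻¹ b_i⁻¹` -/
def cs (j : ℕ) : SurfaceGroup g :=
  if h : j / 2 < g then
    (if j % 2 = 0 then sa g ⟨j / 2, h⟩ else
      sb g ⟨j / 2, h⟩ * (sa g ⟨j / 2, h⟩)⁻¹ * (sb g ⟨j / 2, h⟩)⁻¹)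
  else 1

/-- the partial products of the `c_j` -/
def pc (n : ℕ) : SurfaceGroup g := ((List.range n).map (cs g)).prod

theorem pc_zero : pc g 0 = 1 := rfl

theorem pc_succ (n : ℕ) : pc g (n + 1) = pc g n * cs g n := by
  rw [pc, pc, List.range_succ, List.map_append, List.prod_append]
  simp

theorem cs_even (i : Fin g) : cs g (2 * i) = sa g i := by
  have h1 : 2 * (i : ℕ) / 2 = i := by omega
  have h2 : 2 * (i : ℕ) % 2 = 0 := by omega
  have h3 : 2 * (i : ℕ) / 2 < g := by rw [h1]; exact i.2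
  rw [cs, dif_pos h3, if_pos h2]
  congr 1
  exact Fin.ext h1

theorem cs_odd (i : Fin g) : cs g (2 * i + 1) = sb g i * (sa g i)⁻¹ * (sb g i)⁻¹ := by
  have h1 : (2 * (i : ℕ) + 1) / 2 = i := by omega
  have h2 : (2 * (i : ℕ) + 1) % 2 ≠ 0 := by omega
  have h3 : (2 * (i : ℕ) + 1) / 2 < g := by rw [h1]; exact i.2
  have h4 : (⟨(2 * (i : ℕ) + 1) / 2, h3⟩ : Fin g) = i := Fin.ext h1
  rw [cs, dif_pos h3, if_neg h2, h4]

theorem ofFn_prod_range {Q : Type} [Monoid Q] (f : ℕ → Q) (n : ℕ) :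
    (List.ofFn fun i : Fin n => f i).prod = ((List.range n).map f).prod := by
  induction n with
  | zero => simp
  | succ n ih =>
    rw [List.ofFn_succ', List.concat_eq_append, List.prod_append, List.range_succ,
      List.map_append, List.prod_append]
    simp only [Fin.val_castSucc, Fin.val_last, List.prod_singleton, List.map_cons, List.map_nil]
    rw [ih]

theorem pc_two_mul (n : ℕ) : pc g (2 * n) =
    ((List.range n).map fun i => cs g (2 * i) * cs g (2 * i + 1)).prod := by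
  induction n with
  | zero => rfl
  | succ n ih =>
    rw [show 2 * (n + 1) = 2 * n + 1 + 1 by ring, pc_succ, pc_succ, ih, List.range_succ,
      List.map_append, List.prod_append]
    simp [mul_assoc]

theorem pc_full : pc g (2 * g) = 1 := by
  rw [pc_two_mul, ← ofFn_prod_range]
  have h := surf_rel g
  rw [← h]
  congr 2
  funext i
  rw [cs_even, cs_odd]
  group

/-- the products `c_0 ⋯ c_j`, periodic in `j` -/
def Gz (j : ℤ) : SurfaceGroup g := pc g ((j + 1) % (2 * g)).toNat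

/-- the elements `c_j`, periodic in `j` -/
def cz (j : ℤ) : SurfaceGroup g := (Gz g (j - 1))⁻¹ * Gz g j

/-- the group of the `2g`-holed sphere -/
def FF : Subgroup (SurfaceGroup g) := Subgroup.closure (Set.range (cz g))

theorem cz_mem (j : ℤ) : cz g j ∈ FF g := Subgroup.subset_closure ⟨j, rfl⟩

theorem Gz_eq {i j : ℤ} (h : (2 * g : ℤ) ∣ j - i) : Gz g i = Gz g j := by
  have : (i + 1) % (2 * g) = (j + 1) % (2 * g) := by
    apply Int.emod_emod_of_dvd _ (dvd_refl _) |>.symm.trans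
    rw [Int.emod_emod_of_dvd _ (dvd_refl _)]
    apply Int.emod_emod_of_dvd _ (dvd_refl _) |>.symm.trans
    rw [Int.emod_emod_of_dvd _ (dvd_refl _)]
    exact (Int.emod_emod_of_dvd _ (dvd_refl _)).symm.trans (by
      rw [Int.emod_emod_of_dvd _ (dvd_refl _)]
      exact Int.ModEq.symm (Int.modEq_iff_dvd.2 (by
        rw [show i + 1 - (j + 1) = -(j - i) by ring]
        exact (dvd_neg).2 h)))
  rw [Gz, Gz, this]

theorem cz_eq {i j : ℤ} (h : (2 * g : ℤ) ∣ j - i) : cz g i = cz g j := by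
  rw [cz, cz, Gz_eq g h, Gz_eq g (i := i - 1) (j := j - 1) (by
    rwa [show j - 1 - (i - 1) = j - i by ring])]

theorem Gz_nat {n : ℕ} (h : n + 1 < 2 * g) : Gz g n = pc g (n + 1) := by
  rw [Gz]
  congr 1
  rw [Int.emod_eq_of_lt (by omega) (by omega)]
  omega

theorem Gz_neg_one : Gz g (-1) = 1 := by
  rw [Gz]
  simp [pc_zero]

theorem cz_nat {n : ℕ} (h : n < 2 * g) : cz g n = cs g n := by
  have h1 : Gz g ((n : ℤ) - 1) = pc g n := by
    rcases Nat.eq_zero_or_pos n with rfl | hn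
    · rw [Nat.cast_zero, zero_sub, Gz_neg_one, pc_zero]
    · obtain ⟨m, rfl⟩ := Nat.exists_eq_succ_of_ne_zero hn.ne'
      have := Gz_nat g (n := m) (by omega)
      rw [← this]
      congr 1
      push_cast
      ring
  have h2 : Gz g n = pc g (n + 1) := by
    rcases Nat.lt_or_ge (n + 1) (2 * g) with h3 | h3
    · exact Gz_nat g h3
    · have h4 : n + 1 = 2 * g := by omega
      rw [h4, pc_full, ← Gz_neg_one g]
      apply (Gz_eq g _).symm
      exact ⟨1, by omega⟩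
  rw [cz, h1, h2, pc_succ, inv_mul_cancel_left]

theorem cz_even (i : Fin g) : cz g (2 * (i : ℕ)) = sa g i := by
  have h := cz_nat g (n := 2 * (i : ℕ)) (by omega)
  rw [← cs_even, ← h]
  push_cast
  rfl

theorem cz_odd (i : Fin g) : cz g (2 * (i : ℕ) + 1) = sb g i * (sa g i)⁻¹ * (sb g i)⁻¹ := by
  have h := cz_nat g (n := 2 * (i : ℕ) + 1) (by omega)
  rw [← cs_odd, ← h]
  push_cast
  rfl

end

namespace Dat

variable {A : Type} [CommRing A] {S : Subsemiring A} {g : ℕ} (D : Dat S g)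

theorem rho_cs (n : ℕ) (h : n < 2 * g) : D.rho (cs g n) = D.c n := by
  obtain ⟨i, hi | hi⟩ : ∃ i : ℕ, n = 2 * i ∨ n = 2 * i + 1 := ⟨n / 2, by omega⟩
  · subst hi
    have := cs_even g ⟨i, by omega⟩
    simp only at this
    rw [this, rho_a]
    push_cast
    rfl
  · subst hi
    have := cs_odd g ⟨i, by omega⟩
    simp only at this
    rw [this, map_mul, map_mul, map_inv, map_inv, rho_a, rho_b, conj_B]
    push_cast
    rfl

theorem rho_cz (hg : 1 ≤ g) (j : ℤ) : D.rho (cz g j) = D.c j := by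
  obtain ⟨l, t, h1, h2, rfl⟩ := exists_rep hg (-1) j
  obtain ⟨n, rfl⟩ : ∃ n : ℕ, (n : ℤ) = l := ⟨l.toNat, by omega⟩
  obtain ⟨e, he, -, -, -, -, -, h3, -⟩ := D.shift n t
  rw [h3, ← cz_eq g (i := (n : ℤ)) (j := (n : ℤ) + 2 * g * t) ⟨t, by ring⟩, cz_nat g (by omega),
    rho_cs _ _ (by omega)]

theorem rho_pc (n : ℕ) (h : n ≤ 2 * g) : D.rho (pc g n) = (D.G (-1))⁻¹ * D.G (n - 1) ∨
    D.rho (pc g n) = -((D.G (-1))⁻¹ * D.G (n - 1)) := by
  induction n with
  | zero => left; rw [pc_zero, map_one, Nat.cast_zero, zero_sub, inv_mul_cancel]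
  | succ n ih =>
    have e : D.c n = -((D.G (n - 1))⁻¹ * D.G n) := rfl
    rw [pc_succ, map_mul, rho_cs _ _ (by omega), e]
    push_cast
    rw [add_sub_cancel_right]
    rcases ih (by omega) with h1 | h1 <;> rw [h1]
    · right
      rw [mul_neg]
      group
    · left
      rw [neg_mul_neg]
      group

theorem rho_Gz (hg : 1 ≤ g) (j : ℤ) : D.rho (Gz g j) = (D.G (-1))⁻¹ * D.G j ∨
    D.rho (Gz g j) = -((D.G (-1))⁻¹ * D.G j) := by
  obtain ⟨l, t, h1, h2, rfl⟩ := exists_rep hg (-2) j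
  obtain ⟨n, hn⟩ : ∃ n : ℕ, (n : ℤ) = l + 1 := ⟨(l + 1).toNat, by omega⟩
  obtain ⟨e, he, -, -, -, -, h3, -, -⟩ := D.shift l t
  rw [h3, ← Gz_eq g (i := l) (j := l + 2 * g * t) ⟨t, by ring⟩, Gz,
    Int.emod_eq_of_lt (by omega) (by omega), ← hn, Int.toNat_natCast,
    show D.G l = D.G (n - 1) by congr 1; omega]
  exact D.rho_pc n (by omega)

end Dat

end Pool.Agent.ToC
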