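import Mathlib.LinearAlgebra.Matrix.SpecialLinearGroup
import Mathlib.Algebra.Ring.Subsemiring.Basic
import Mathlib.Tactic.LinearCombination
import Mathlib.Tactic.FinCases
import Mathlib.Tactic.Abel
import Pool.Agent.Lib.MP_305fdd_al.Su.Emb

/-!
# MP_305fdd_al, torsion room: chart data for surface groups

`A` a commutative ring, `S` a subsemiring of `A` (the positive elements).  A `Dat S g` consists of two
polygons with `2g` vertices (vectors `nu j`, `w j`, `j : ℤ`, antiperiodic with period `2g`), eigenvalues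
`mu j` and gluing parameters `r i`.  It gives `rho : SurfaceGroup g →* SL(2, A)`.
-/

set_option autoImplicit false

namespace Pool.Agent.ToC

open Matrix Pool.Agent.Su

variable {A : Type} [CommRing A]

/-- the determinant of two vectors -/
def dt (u v : Fin 2 → A) : A := u 0 * v 1 - u 1 * v 0

/-- Chart data: front polygon `nu`, back polygon `w`, eigenvalues `mu`, their inverses `mui`,
inverses `dl` of `mu - mui`, inverses `lei` of the edge determinants, gluing parameters `r`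
and their inverses `ri`. -/
structure Dat (S : Subsemiring A) (g : ℕ) where
  nu : ℤ → Fin 2 → A
  w : ℤ → Fin 2 → A
  mu : ℤ → A
  mui : ℤ → A
  dl : ℤ → A
  lei : ℤ → A
  r : ℤ → A
  ri : ℤ → A
  nu_per : ∀ j : ℤ, nu (j + 2 * g) = - nu j
  w_per : ∀ j : ℤ, w (j + 2 * g) = - w j
  mu_per : ∀ j : ℤ, mu (j + 2 * g) = mu j
  mu_pair : ∀ i : ℤ, mu (2 * i + 1) = mu (2 * i)
  nu_pos : ∀ i j : ℤ, i < j → j < i + 2 * g → dt (nu i) (nu j) ∈ S
  w_pos : ∀ i j : ℤ, i < j → j < i + 2 * g → dt (w j) (w i) ∈ S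
  edge : ∀ j : ℤ, mu j * dt (w (j + 1)) (w j) = dt (nu j) (nu (j + 1))
  lei_mul : ∀ j : ℤ, dt (nu j) (nu (j + 1)) * lei j = 1
  lei_mem : ∀ j : ℤ, lei j ∈ S
  mu_mem : ∀ j : ℤ, mu j ∈ S
  mui_mem : ∀ j : ℤ, mui j ∈ S
  mu_mul : ∀ j : ℤ, mu j * mui j = 1
  dl_mem : ∀ j : ℤ, dl j ∈ S
  dl_mul : ∀ j : ℤ, (mu j - mui j) * dl j = 1
  r_mem : ∀ j : ℤ, r j ∈ S
  ri_mem : ∀ j : ℤ, ri j ∈ S
  r_mul : ∀ j : ℤ, r j * ri j = 1

end Pool.Agent.ToC
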