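import Mathlib.LinearAlgebra.Matrix.SpecialLinearGroup
import Mathlib.LinearAlgebra.Matrix.ToLin
import Pool.Agent.Lib.MP_305fdd_al.To.Ch.Defs

/-!
# MP_305fdd_al, torsion room: the representation of a chart datum
-/

set_option autoImplicit false

namespace Pool.Agent.ToC

open Matrix Pool.Agent.Su

variable {A : Type} [CommRing A]

theorem dt_def (u v : Fin 2 → A) : dt u v = u 0 * v 1 - u 1 * v 0 := rfl

theorem dt_self (u : Fin 2 → A) : dt u u = 0 := by simp only [dt]; ring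

theorem dt_swap (u v : Fin 2 → A) : dt u v = - dt v u := by simp only [dt]; ring

theorem dt_add_left (u v x : Fin 2 → A) : dt (u + v) x = dt u x + dt v x := by
  simp only [dt, Pi.add_apply]; ring

theorem dt_add_right (u v x : Fin 2 → A) : dt x (u + v) = dt x u + dt x v := by
  simp only [dt, Pi.add_apply]; ring

theorem dt_smul_left (a : A) (u x : Fin 2 → A) : dt (a • u) x = a * dt u x := by
  simp only [dt, Pi.smul_apply, smul_eq_mul]; ring

theorem dt_smul_right (a : A) (u x : Fin 2 → A) : dt x (a • u) = a * dt x u := by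
  simp only [dt, Pi.smul_apply, smul_eq_mul]; ring

theorem dt_neg_left (u x : Fin 2 → A) : dt (-u) x = - dt u x := by
  simp only [dt, Pi.neg_apply]; ring

theorem dt_neg_right (u x : Fin 2 → A) : dt x (-u) = - dt x u := by
  simp only [dt, Pi.neg_apply]; ring

/-- the three term relation -/
theorem plucker (p q r s : Fin 2 → A) :
    dt p q * dt r s - dt p r * dt q s + dt p s * dt q r = 0 := by
  simp only [dt]; ring

/-- the action of `SL(2, A)` on vectors -/
def ac (M : SpecialLinearGroup (Fin 2) A) (v : Fin 2 → A) : Fin 2 → A := M.1 *ᵥ v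

theorem ac_zero_apply (M : SpecialLinearGroup (Fin 2) A) (v : Fin 2 → A) :
    ac M v 0 = M.1 0 0 * v 0 + M.1 0 1 * v 1 := by
  simp [ac, mulVec, dotProduct, Fin.sum_univ_two]

theorem ac_one_apply (M : SpecialLinearGroup (Fin 2) A) (v : Fin 2 → A) :
    ac M v 1 = M.1 1 0 * v 0 + M.1 1 1 * v 1 := by
  simp [ac, mulVec, dotProduct, Fin.sum_univ_two]

theorem ac_add (M : SpecialLinearGroup (Fin 2) A) (u v : Fin 2 → A) :
    ac M (u + v) = ac M u + ac M v := mulVec_add _ _ _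

theorem ac_smul (M : SpecialLinearGroup (Fin 2) A) (a : A) (v : Fin 2 → A) :
    ac M (a • v) = a • ac M v := mulVec_smul _ _ _

theorem ac_neg (M : SpecialLinearGroup (Fin 2) A) (v : Fin 2 → A) :
    ac M (-v) = - ac M v := mulVec_neg _ _

theorem ac_one (v : Fin 2 → A) : ac (1 : SpecialLinearGroup (Fin 2) A) v = v := by
  simp [ac]

theorem ac_mul (M N : SpecialLinearGroup (Fin 2) A) (v : Fin 2 → A) :
    ac (M * N) v = ac M (ac N v) := by
  have h : (M * N).1 = M.1 * N.1 := rfl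
  rw [ac, h, ac, ac, mulVec_mulVec]

theorem neg_ac (M : SpecialLinearGroup (Fin 2) A) (v : Fin 2 → A) : ac (-M) v = - ac M v := by
  simp [ac, neg_mulVec]

theorem ac_inv_ac (M : SpecialLinearGroup (Fin 2) A) (v : Fin 2 → A) : ac M⁻¹ (ac M v) = v := by
  rw [← ac_mul, inv_mul_cancel, ac_one]

theorem ac_ac_inv (M : SpecialLinearGroup (Fin 2) A) (v : Fin 2 → A) : ac M (ac M⁻¹ v) = v := by
  rw [← ac_mul, mul_inv_cancel, ac_one]

theorem dt_ac (M : SpecialLinearGroup (Fin 2) A) (u v : Fin 2 → A) :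
    dt (ac M u) (ac M v) = dt u v := by
  have h := M.2
  rw [det_fin_two] at h
  simp only [dt, ac_zero_apply, ac_one_apply]
  linear_combination (u 0 * v 1 - u 1 * v 0) * h

/-- an element of `SL(2, A)` is determined by its values on a basis -/
theorem sl_ext {p q : Fin 2 → A} {u : A} (h : dt p q * u = 1) {M N : SpecialLinearGroup (Fin 2) A}
    (h1 : ac M p = ac N p) (h2 : ac M q = ac N q) : M = N := by
  have e1 : ∀ v : Fin 2 → A, v = (u * dt v q) • p + (u * dt p v) • q := by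
    intro v
    funext i
    fin_cases i
    · simp only [Fin.zero_eta, Fin.isValue, Pi.add_apply, Pi.smul_apply, smul_eq_mul, dt] at h ⊢
      linear_combination (-(v 0)) * h
    · simp only [Fin.mk_one, Fin.isValue, Pi.add_apply, Pi.smul_apply, smul_eq_mul, dt] at h ⊢
      linear_combination (-(v 1)) * h
  have e2 : ∀ v : Fin 2 → A, ac M v = ac N v := by
    intro v
    rw [e1 v, ac_add, ac_add, ac_smul, ac_smul, ac_smul, ac_smul, h1, h2]
  apply Subtype.ext
  ext i j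
  have h3 := congrFun (e2 (Pi.single j 1)) i
  simpa [ac] using h3

/-- the matrix which maps `p, q` to `p', q'` -/
def tf (p q p' q' : Fin 2 → A) (u : A) (h : dt p q * u = 1) (h' : dt p' q' = dt p q) :
    SpecialLinearGroup (Fin 2) A :=
  ⟨!![u * (q 1 * p' 0 - p 1 * q' 0), u * (p 0 * q' 0 - q 0 * p' 0);
      u * (q 1 * p' 1 - p 1 * q' 1), u * (p 0 * q' 1 - q 0 * p' 1)], by
    rw [det_fin_two_of]
    simp only [dt] at h h'
    linear_combination (u * (p' 0 * q' 1 - p' 1 * q' 0) + 1) * h + u * h'⟩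

theorem tf_fst {p q p' q' : Fin 2 → A} {u : A} (h : dt p q * u = 1) (h' : dt p' q' = dt p q) :
    ac (tf p q p' q' u h h') p = p' := by
  simp only [dt] at h
  funext i
  fin_cases i
  · simp only [Fin.zero_eta, Fin.isValue, ac_zero_apply, tf, of_apply, cons_val_zero, cons_val_one,
      cons_val', cons_val_fin_one]
    linear_combination (p' 0) * h
  · simp only [Fin.mk_one, Fin.isValue, ac_one_apply, tf, of_apply, cons_val_zero, cons_val_one,
      cons_val', cons_val_fin_one]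
    linear_combination (p' 1) * h

theorem tf_snd {p q p' q' : Fin 2 → A} {u : A} (h : dt p q * u = 1) (h' : dt p' q' = dt p q) :
    ac (tf p q p' q' u h h') q = q' := by
  simp only [dt] at h
  funext i
  fin_cases i
  · simp only [Fin.zero_eta, Fin.isValue, ac_zero_apply, tf, of_apply, cons_val_zero, cons_val_one,
      cons_val', cons_val_fin_one]
    linear_combination (q' 0) * h
  · simp only [Fin.mk_one, Fin.isValue, ac_one_apply, tf, of_apply, cons_val_zero, cons_val_one,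
      cons_val', cons_val_fin_one]
    linear_combination (q' 1) * h

namespace Dat

variable {S : Subsemiring A} {g : ℕ} (D : Dat S g)

/-- the edge determinant -/
def le (j : ℤ) : A := dt (D.nu j) (D.nu (j + 1))

theorem G_aux (j : ℤ) : dt (D.mu j • D.w j) (- D.w (j + 1)) = dt (D.nu j) (D.nu (j + 1)) := by
  rw [← D.edge j, dt_smul_left, dt_neg_right, dt_swap (D.w j)]
  ring

/-- the map from the front polygon to the back polygon across the edge `j` (up to sign) -/
def G (j : ℤ) : SpecialLinearGroup (Fin 2) A :=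
  tf (D.nu j) (D.nu (j + 1)) (D.mu j • D.w j) (- D.w (j + 1)) (D.lei j) (D.lei_mul j) (D.G_aux j)

theorem G_nu (j : ℤ) : ac (D.G j) (D.nu j) = D.mu j • D.w j := tf_fst _ _

theorem G_nu' (j : ℤ) : ac (D.G j) (D.nu (j + 1)) = - D.w (j + 1) := tf_snd _ _

theorem G_per (j : ℤ) : D.G (j + 2 * g) = D.G j := by
  have e1 : D.nu (j + 2 * g) = - D.nu j := D.nu_per j
  have e2 : D.nu (j + 2 * g + 1) = - D.nu (j + 1) := by
    rw [show j + 2 * (g : ℤ) + 1 = (j + 1) + 2 * g by ring]; exact D.nu_per _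
  have e3 : D.w (j + 2 * g + 1) = - D.w (j + 1) := by
    rw [show j + 2 * (g : ℤ) + 1 = (j + 1) + 2 * g by ring]; exact D.w_per _
  refine sl_ext (D.lei_mul j) ?_ ?_
  · have h := D.G_nu (j + 2 * g)
    rw [e1, D.w_per, D.mu_per, ac_neg, smul_neg, neg_inj] at h
    rw [h, D.G_nu]
  · have h := D.G_nu' (j + 2 * g)
    rw [e2, e3, ac_neg, neg_inj] at h
    rw [h, D.G_nu']

/-- the generator `c_j` of the group of the `2g`-holed sphere -/
def c (j : ℤ) : SpecialLinearGroup (Fin 2) A := -((D.G (j - 1))⁻¹ * D.G j)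

theorem c_nu (j : ℤ) : ac (D.c j) (D.nu j) = D.mu j • D.nu j := by
  have h := D.G_nu' (j - 1)
  rw [sub_add_cancel] at h
  have h2 : ac (D.G (j - 1))⁻¹ (D.w j) = - D.nu j := by
    rw [← neg_inj, ← ac_neg, ← h, ac_inv_ac, neg_neg]
  rw [c, neg_ac, ac_mul, D.G_nu, ac_smul, h2, smul_neg, neg_neg]

/-- the number `alpha` -/
def al (j : ℤ) : A := dt (D.nu (j + 1)) (ac (D.c j) (D.nu (j + 1))) * D.lei j * D.dl j

/-- the repelling eigenvector of `c j` -/
def n (j : ℤ) : Fin 2 → A := D.lei j • (D.nu (j + 1) + D.al j • D.nu j)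

theorem dt_nu_n (j : ℤ) : dt (D.nu j) (D.n j) = 1 := by
  rw [n, dt_smul_right, dt_add_right, dt_smul_right, dt_self, mul_zero, add_zero, mul_comm]
  exact D.lei_mul j

theorem dt_n_nu (j : ℤ) : dt (D.n j) (D.nu j) = -1 := by rw [dt_swap, dt_nu_n]

theorem c_per (j : ℤ) : D.c (j + 2 * g) = D.c j := by
  rw [c, c, D.G_per, show j + 2 * (g : ℤ) - 1 = (j - 1) + 2 * g by ring, D.G_per]

theorem lei_per (j : ℤ) : D.lei (j + 2 * g) = D.lei j := by
  have h1 := D.lei_mul (j + 2 * g)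
  rw [D.nu_per, show j + 2 * (g : ℤ) + 1 = (j + 1) + 2 * g by ring, D.nu_per, dt_neg_left,
    dt_neg_right, neg_neg] at h1
  have h2 := D.lei_mul j
  linear_combination (D.lei j) * h1 - (D.lei (j + 2 * g)) * h2

theorem mui_per (j : ℤ) : D.mui (j + 2 * g) = D.mui j := by
  have h1 := D.mu_mul (j + 2 * g)
  rw [D.mu_per] at h1
  have h2 := D.mu_mul j
  linear_combination (D.mui j) * h1 - (D.mui (j + 2 * g)) * h2

theorem dl_per (j : ℤ) : D.dl (j + 2 * g) = D.dl j := by
  have h1 := D.dl_mul (j + 2 * g)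
  rw [D.mu_per, D.mui_per] at h1
  have h2 := D.dl_mul j
  linear_combination (D.dl j) * h1 - (D.dl (j + 2 * g)) * h2

theorem al_per (j : ℤ) : D.al (j + 2 * g) = D.al j := by
  rw [al, al, D.c_per, D.lei_per, D.dl_per, show j + 2 * (g : ℤ) + 1 = (j + 1) + 2 * g by ring,
    D.nu_per, ac_neg, dt_neg_left, dt_neg_right, neg_neg]

theorem n_per (j : ℤ) : D.n (j + 2 * g) = - D.n j := by
  rw [n, n, D.al_per, D.lei_per, show j + 2 * (g : ℤ) + 1 = (j + 1) + 2 * g by ring,
    D.nu_per, D.nu_per, smul_neg, ← neg_add, smul_neg]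

theorem dt_nu_c (j : ℤ) : dt (D.nu j) (ac (D.c j) (D.nu (j + 1))) = D.mui j * D.le j := by
  have h := dt_ac (D.c j) (D.nu j) (D.nu (j + 1))
  rw [D.c_nu, dt_smul_left] at h
  have h2 := D.mu_mul j
  rw [le]
  linear_combination (D.mui j) * h - (dt (D.nu j) (ac (D.c j) (D.nu (j + 1)))) * h2

end Dat

theorem vec_ext {p q : Fin 2 → A} {u : A} (h : dt p q * u = 1) {X Y : Fin 2 → A}
    (h1 : dt p X = dt p Y) (h2 : dt q X = dt q Y) : X = Y := by
  simp only [dt] at h h1 h2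
  funext i
  fin_cases i
  · simp only [Fin.zero_eta, Fin.isValue]
    linear_combination (-(X 0) + Y 0) * h + u * q 0 * h1 - u * p 0 * h2
  · simp only [Fin.mk_one, Fin.isValue]
    linear_combination (-(X 1) + Y 1) * h + u * q 1 * h1 - u * p 1 * h2

namespace Dat

variable {S : Subsemiring A} {g : ℕ} (D : Dat S g)

theorem c_nu' (j : ℤ) : ac (D.c j) (D.nu (j + 1)) =
    D.mui j • D.nu (j + 1) - (D.al j * (D.mu j - D.mui j)) • D.nu j := by
  refine vec_ext (D.lei_mul j) ?_ ?_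
  · rw [D.dt_nu_c, sub_eq_add_neg, dt_add_right, dt_neg_right, dt_smul_right, dt_smul_right,
      dt_self, mul_zero, neg_zero, add_zero, le]
  · rw [sub_eq_add_neg, dt_add_right, dt_neg_right, dt_smul_right, dt_smul_right,
      dt_self, mul_zero, zero_add, al, dt_swap (D.nu (j + 1)) (D.nu j)]
    have h1 := D.dl_mul j
    have h2 := D.lei_mul j
    linear_combination (-(dt (D.nu (j + 1)) (ac (D.c j) (D.nu (j + 1))))) * h1 -
      (dt (D.nu (j + 1)) (ac (D.c j) (D.nu (j + 1))) * ((D.mu j - D.mui j) * D.dl j)) * h2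

theorem c_n (j : ℤ) : ac (D.c j) (D.n j) = D.mui j • D.n j := by
  rw [n, ac_smul, ac_add, ac_smul, D.c_nu, D.c_nu']
  funext i
  simp only [Pi.smul_apply, Pi.add_apply, Pi.sub_apply, smul_eq_mul]
  ring

theorem inv_c_nu (j : ℤ) : ac (D.c j)⁻¹ (D.nu j) = D.mui j • D.nu j := by
  have h : ac (D.c j)⁻¹ (ac (D.c j) (D.mui j • D.nu j)) = D.mui j • D.nu j := ac_inv_ac _ _
  rwa [ac_smul, D.c_nu, smul_smul, mul_comm, D.mu_mul, one_smul] at h

theorem inv_c_n (j : ℤ) : ac (D.c j)⁻¹ (D.n j) = D.mu j • D.n j := by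
  have h : ac (D.c j)⁻¹ (ac (D.c j) (D.mu j • D.n j)) = D.mu j • D.n j := ac_inv_ac _ _
  rwa [ac_smul, D.c_n, smul_smul, D.mu_mul, one_smul] at h

theorem B_aux1 (i : ℤ) : dt (D.n (2 * i)) (D.nu (2 * i)) * (-1 : A) = 1 := by
  rw [dt_n_nu]; ring

theorem B_aux2 (i : ℤ) : dt (D.r i • D.nu (2 * i + 1)) (-(D.ri i • D.n (2 * i + 1))) =
    dt (D.n (2 * i)) (D.nu (2 * i)) := by
  rw [dt_n_nu, dt_smul_left, dt_neg_right, dt_smul_right, dt_nu_n]
  linear_combination -(D.r_mul i)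

/-- the gluing map `b_i` -/
def B (i : ℤ) : SpecialLinearGroup (Fin 2) A :=
  tf (D.n (2 * i)) (D.nu (2 * i)) (D.r i • D.nu (2 * i + 1)) (-(D.ri i • D.n (2 * i + 1))) (-1)
    (D.B_aux1 i) (D.B_aux2 i)

theorem B_n (i : ℤ) : ac (D.B i) (D.n (2 * i)) = D.r i • D.nu (2 * i + 1) := tf_fst _ _

theorem B_nu (i : ℤ) : ac (D.B i) (D.nu (2 * i)) = -(D.ri i • D.n (2 * i + 1)) := tf_snd _ _

theorem inv_B_nu (i : ℤ) : ac (D.B i)⁻¹ (D.nu (2 * i + 1)) = D.ri i • D.n (2 * i) := by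
  have h : ac (D.B i)⁻¹ (ac (D.B i) (D.ri i • D.n (2 * i))) = D.ri i • D.n (2 * i) :=
    ac_inv_ac _ _
  rwa [ac_smul, D.B_n, smul_smul, mul_comm, D.r_mul, one_smul] at h

theorem inv_B_n (i : ℤ) : ac (D.B i)⁻¹ (D.n (2 * i + 1)) = -(D.r i • D.nu (2 * i)) := by
  have h : ac (D.B i)⁻¹ (ac (D.B i) (-(D.r i • D.nu (2 * i)))) = -(D.r i • D.nu (2 * i)) :=
    ac_inv_ac _ _
  rwa [ac_neg, ac_smul, D.B_nu, smul_neg, neg_neg, smul_smul, D.r_mul, one_smul] at h

/-- `b_i a_i⁻¹ b_i⁻¹ = c_(2i+1)` -/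
theorem conj_B (i : ℤ) : D.B i * (D.c (2 * i))⁻¹ * (D.B i)⁻¹ = D.c (2 * i + 1) := by
  have hmui : D.mui (2 * i + 1) = D.mui (2 * i) := by
    have h1 := D.mu_mul (2 * i + 1)
    rw [D.mu_pair] at h1
    have h2 := D.mu_mul (2 * i)
    linear_combination (D.mui (2 * i)) * h1 - (D.mui (2 * i + 1)) * h2
  refine sl_ext (p := D.nu (2 * i + 1)) (q := D.n (2 * i + 1)) (u := 1)
    (by rw [dt_nu_n, one_mul]) ?_ ?_
  · rw [ac_mul, ac_mul, D.inv_B_nu, ac_smul, ac_smul, D.inv_c_n, ac_smul, D.B_n, D.c_nu,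
      smul_smul, smul_smul, D.mu_pair]
    congr 1
    linear_combination (D.mu (2 * i)) * (D.r_mul i)
  · rw [ac_mul, ac_mul, D.inv_B_n, ac_neg, ac_smul, ac_neg, ac_smul, D.inv_c_nu, ac_smul, D.B_nu,
      D.c_n, smul_neg, smul_neg, neg_neg, smul_smul, smul_smul, hmui]
    congr 1
    linear_combination (D.mui (2 * i)) * (D.r_mul i)

theorem c_mul_c (j : ℤ) : D.c j * D.c (j + 1) = (D.G (j - 1))⁻¹ * D.G (j + 1) := by
  rw [c, c, neg_mul_neg, add_sub_cancel_right]
  group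

theorem comm_eq (i : ℤ) : D.c (2 * i) * D.B i * (D.c (2 * i))⁻¹ * (D.B i)⁻¹ =
    (D.G (2 * i - 1))⁻¹ * D.G (2 * i + 1) := by
  rw [← c_mul_c, ← conj_B]
  group

theorem prod_aux (n : ℕ) :
    (List.ofFn fun i : Fin n => D.c (2 * (i : ℕ)) * D.B (i : ℕ) * (D.c (2 * (i : ℕ)))⁻¹ *
      (D.B (i : ℕ))⁻¹).prod = (D.G (-1))⁻¹ * D.G (2 * n - 1) := by
  induction n with
  | zero => simp
  | succ n ih =>
    rw [List.ofFn_succ', List.concat_eq_append, List.prod_append, List.prod_singleton]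
    simp only [Fin.val_castSucc, Fin.val_last]
    rw [ih, comm_eq, mul_assoc, mul_inv_cancel_left]
    congr 2
    push_cast
    ring

/-- the representation of a chart datum -/
def rho : SurfaceGroup g →* SpecialLinearGroup (Fin 2) A :=
  surfLift (fun i : Fin g => D.c (2 * (i : ℕ))) (fun i : Fin g => D.B (i : ℕ)) (by
    rw [D.prod_aux g, show (2 * (g : ℤ) - 1) = -1 + 2 * g by ring, D.G_per, inv_mul_cancel])

theorem rho_a (i : Fin g) : D.rho (sa g i) = D.c (2 * (i : ℕ)) := surfLift_sa _ _ _ _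

theorem rho_b (i : Fin g) : D.rho (sb g i) = D.B (i : ℕ) := surfLift_sb _ _ _ _

end Dat

end Pool.Agent.ToC
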