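import Mathlib

/-!
# MP_305fdd_al, lattices with torsion, the chart: cones and positive matrices

A commutative ring with a cone of nonnegative and a cone of positive elements; matrices of `SL₂` which are
positive up to the sign.  The two examples are the real numbers and the triples
`(x, x₁, x₂)` of real numbers with `x ^ 2 ≤ x₁ * x₂`.
-/

set_option autoImplicit false

namespace Pool.Agent.ToCh

/-- nonnegative and positive elements of a commutative ring -/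
class PCone (R : Type) [CommRing R] where
  P0 : R → Prop
  Pp : R → Prop
  zero : P0 0
  one : Pp 1
  sub : ∀ {x}, Pp x → P0 x
  add0 : ∀ {x y}, P0 x → P0 y → P0 (x + y)
  mul0 : ∀ {x y}, P0 x → P0 y → P0 (x * y)
  addp : ∀ {x y}, Pp x → P0 y → Pp (x + y)
  mulp : ∀ {x y}, Pp x → Pp y → Pp (x * y)

export PCone (P0 Pp)

/-- the matrices of determinant one -/
abbrev SL (R : Type) [CommRing R] := Matrix.SpecialLinearGroup (Fin 2) R

section

variable {R : Type} [CommRing R]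

/-- constructor -/
def mk2 (a b c d : R) (h : a * d - b * c = 1) : SL R :=
  ⟨!![a, b; c, d], by rw [Matrix.det_fin_two_of]; exact h⟩

theorem mk2_ext {M N : SL R} (h1 : M.1 0 0 = N.1 0 0) (h2 : M.1 0 1 = N.1 0 1)
    (h3 : M.1 1 0 = N.1 1 0) (h4 : M.1 1 1 = N.1 1 1) : M = N := by
  apply Subtype.ext
  ext i j
  fin_cases i <;> fin_cases j
  · exact h1
  · exact h2
  · exact h3
  · exact h4

@[simp] theorem mk2_00 (a b c d : R) (h : a * d - b * c = 1) : (mk2 a b c d h).1 0 0 = a := rfl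
@[simp] theorem mk2_01 (a b c d : R) (h : a * d - b * c = 1) : (mk2 a b c d h).1 0 1 = b := rfl
@[simp] theorem mk2_10 (a b c d : R) (h : a * d - b * c = 1) : (mk2 a b c d h).1 1 0 = c := rfl
@[simp] theorem mk2_11 (a b c d : R) (h : a * d - b * c = 1) : (mk2 a b c d h).1 1 1 = d := rfl

theorem mul_e (M N : SL R) (i j : Fin 2) :
    (M * N).1 i j = M.1 i 0 * N.1 0 j + M.1 i 1 * N.1 1 j := by
  rw [Matrix.SpecialLinearGroup.coe_mul, Matrix.mul_apply, Fin.sum_univ_two]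

theorem inv00 (M : SL R) : (M⁻¹).1 0 0 = M.1 1 1 := by
  rw [Matrix.SpecialLinearGroup.coe_inv, Matrix.adjugate_fin_two]; rfl
theorem inv01 (M : SL R) : (M⁻¹).1 0 1 = -M.1 0 1 := by
  rw [Matrix.SpecialLinearGroup.coe_inv, Matrix.adjugate_fin_two]; rfl
theorem inv10 (M : SL R) : (M⁻¹).1 1 0 = -M.1 1 0 := by
  rw [Matrix.SpecialLinearGroup.coe_inv, Matrix.adjugate_fin_two]; rfl
theorem inv11 (M : SL R) : (M⁻¹).1 1 1 = M.1 0 0 := by
  rw [Matrix.SpecialLinearGroup.coe_inv, Matrix.adjugate_fin_two]; rfl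

theorem one00 : (1 : SL R).1 0 0 = 1 := rfl
theorem one01 : (1 : SL R).1 0 1 = 0 := rfl
theorem one10 : (1 : SL R).1 1 0 = 0 := rfl
theorem one11 : (1 : SL R).1 1 1 = 1 := rfl

/-- signs -/
def Sg (ε : R) : Prop := ε = 1 ∨ ε = -1

theorem Sg.sq {ε : R} (h : Sg ε) : ε * ε = 1 := by
  rcases h with rfl | rfl <;> ring

theorem Sg.mul {ε δ : R} (h : Sg ε) (h' : Sg δ) : Sg (ε * δ) := by
  rcases h with rfl | rfl <;> rcases h' with rfl | rfl
  · exact Or.inl (by ring)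
  · exact Or.inr (by ring)
  · exact Or.inr (by ring)
  · exact Or.inl (by ring)

/-- equality up to the sign -/
def Es (M N : SL R) : Prop := ∃ ε : R, Sg ε ∧ ∀ i j, M.1 i j = ε * N.1 i j

theorem Es.refl (M : SL R) : Es M M := ⟨1, Or.inl rfl, fun i j => by ring⟩

theorem Es.symm {M N : SL R} (h : Es M N) : Es N M := by
  obtain ⟨ε, h1, h2⟩ := h
  refine ⟨ε, h1, fun i j => ?_⟩
  rw [h2]
  linear_combination (-N.1 i j) * h1.sq

theorem Es.trans {M N P : SL R} (h : Es M N) (h' : Es N P) : Es M P := by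
  obtain ⟨ε, h1, h2⟩ := h
  obtain ⟨δ, h3, h4⟩ := h'
  refine ⟨ε * δ, h1.mul h3, fun i j => ?_⟩
  rw [h2, h4]
  ring

theorem Es.mul {M N P Q : SL R} (h : Es M N) (h' : Es P Q) : Es (M * P) (N * Q) := by
  obtain ⟨ε, h1, h2⟩ := h
  obtain ⟨δ, h3, h4⟩ := h'
  refine ⟨ε * δ, h1.mul h3, fun i j => ?_⟩
  rw [mul_e, mul_e, h2, h2, h4, h4]
  ring

theorem Es.inv {M N : SL R} (h : Es M N) : Es M⁻¹ N⁻¹ := by
  obtain ⟨ε, h1, h2⟩ := h
  refine ⟨ε, h1, fun i j => ?_⟩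
  fin_cases i <;> fin_cases j
  · change (M⁻¹).1 0 0 = ε * (N⁻¹).1 0 0
    rw [inv00, inv00, h2]
  · change (M⁻¹).1 0 1 = ε * (N⁻¹).1 0 1
    rw [inv01, inv01, h2]; ring
  · change (M⁻¹).1 1 0 = ε * (N⁻¹).1 1 0
    rw [inv10, inv10, h2]; ring
  · change (M⁻¹).1 1 1 = ε * (N⁻¹).1 1 1
    rw [inv11, inv11, h2]

theorem Es.of_eq {M N : SL R} (h : M = N) : Es M N := h ▸ Es.refl M

/-- minus the identity -/
theorem Es.neg {M N : SL R} (h : ∀ i j, M.1 i j = -N.1 i j) : Es M N :=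
  ⟨-1, Or.inr rfl, fun i j => by rw [h]; ring⟩

/-- the rotation which exchanges the two sides of a geodesic -/
def KK : SL R := mk2 0 1 (-1) 0 (by ring)

/-- diagonal matrices -/
def DG (t t' : R) (h : t * t' = 1) : SL R := mk2 t 0 0 t' (by rw [h]; ring)

theorem KK_sq : Es (KK * KK : SL R) 1 := by
  refine Es.neg fun i j => ?_
  fin_cases i <;> fin_cases j
  · change (KK * KK : SL R).1 0 0 = -(1 : SL R).1 0 0
    rw [mul_e, one00]; simp [KK]
  · change (KK * KK : SL R).1 0 1 = -(1 : SL R).1 0 1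
    rw [mul_e, one01]; simp [KK]
  · change (KK * KK : SL R).1 1 0 = -(1 : SL R).1 1 0
    rw [mul_e, one10]; simp [KK]
  · change (KK * KK : SL R).1 1 1 = -(1 : SL R).1 1 1
    rw [mul_e, one11]; simp [KK]

theorem KK_inv : Es (KK⁻¹ : SL R) KK := by
  have h := (KK_sq (R := R)).mul (Es.refl (KK⁻¹))
  rw [mul_inv_cancel_right, one_mul] at h
  exact h.symm

/-- `K D K⁻¹ = D⁻¹` -/
theorem KK_DG (t t' : R) (h : t * t' = 1) :
    (KK * DG t t' h : SL R) = DG t' t (by rw [mul_comm]; exact h) * KK := by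
  apply mk2_ext <;> rw [mul_e, mul_e] <;> simp [KK, DG]

variable [PCone R]

/-- positive matrices -/
def PM (M : SL R) : Prop := ∃ ε : R, Sg ε ∧ ∀ i j, Pp (ε * M.1 i j)

/-- nonnegative matrices with positive diagonal -/
def DM (M : SL R) : Prop :=
  ∃ ε : R, Sg ε ∧ (∀ i j, P0 (ε * M.1 i j)) ∧ ∀ i, Pp (ε * M.1 i i)

theorem PM.dm {M : SL R} (h : PM M) : DM M := by
  obtain ⟨ε, h1, h2⟩ := h
  exact ⟨ε, h1, fun i j => PCone.sub (h2 i j), fun i => h2 i i⟩

theorem PM.es {M N : SL R} (h : PM M) (h' : Es N M) : PM N := by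
  obtain ⟨ε, h1, h2⟩ := h
  obtain ⟨δ, h3, h4⟩ := h'
  refine ⟨ε * δ, h1.mul h3, fun i j => ?_⟩
  have h5 : ε * δ * N.1 i j = ε * M.1 i j := by
    rw [h4]
    linear_combination (ε * M.1 i j) * h3.sq
  rw [h5]
  exact h2 i j

theorem DM.es {M N : SL R} (h : DM M) (h' : Es N M) : DM N := by
  obtain ⟨ε, h1, h2, h2'⟩ := h
  obtain ⟨δ, h3, h4⟩ := h'
  have h5 : ∀ i j, ε * δ * N.1 i j = ε * M.1 i j := by
    intro i j
    rw [h4]
    linear_combination (ε * M.1 i j) * h3.sq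
  refine ⟨ε * δ, h1.mul h3, fun i j => ?_, fun i => ?_⟩
  · rw [h5]
    exact h2 i j
  · rw [h5]
    exact h2' i

theorem DM.one : DM (1 : SL R) := by
  refine ⟨1, Or.inl rfl, fun i j => ?_, fun i => ?_⟩
  · rw [one_mul]
    fin_cases i <;> fin_cases j
    · exact PCone.sub PCone.one
    · exact PCone.zero
    · exact PCone.zero
    · exact PCone.sub PCone.one
  · rw [one_mul]
    fin_cases i
    · exact PCone.one
    · exact PCone.one

theorem DM.mul {M N : SL R} (h : DM M) (h' : DM N) : DM (M * N) := by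
  obtain ⟨ε, h1, h2, h2'⟩ := h
  obtain ⟨δ, h3, h4, h4'⟩ := h'
  have h5 : ∀ i j, ε * δ * (M * N).1 i j =
      (ε * M.1 i 0) * (δ * N.1 0 j) + (ε * M.1 i 1) * (δ * N.1 1 j) := by
    intro i j
    rw [mul_e]
    ring
  refine ⟨ε * δ, h1.mul h3, fun i j => ?_, fun i => ?_⟩
  · rw [h5]
    exact PCone.add0 (PCone.mul0 (h2 _ _) (h4 _ _)) (PCone.mul0 (h2 _ _) (h4 _ _))
  · rw [h5]
    fin_cases i
    · exact PCone.addp (PCone.mulp (h2' 0) (h4' 0)) (PCone.mul0 (h2 _ _) (h4 _ _))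
    · change Pp ((ε * M.1 1 0) * (δ * N.1 0 1) + (ε * M.1 1 1) * (δ * N.1 1 1))
      rw [add_comm]
      exact PCone.addp (PCone.mulp (h2' 1) (h4' 1)) (PCone.mul0 (h2 _ _) (h4 _ _))

theorem PM.mul_dm {M N : SL R} (h : PM M) (h' : DM N) : PM (M * N) := by
  obtain ⟨ε, h1, h2⟩ := h
  obtain ⟨δ, h3, h4, h4'⟩ := h'
  have h5 : ∀ i j, ε * δ * (M * N).1 i j =
      (ε * M.1 i 0) * (δ * N.1 0 j) + (ε * M.1 i 1) * (δ * N.1 1 j) := by
    intro i j
    rw [mul_e]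
    ring
  refine ⟨ε * δ, h1.mul h3, fun i j => ?_⟩
  rw [h5]
  fin_cases j
  · exact PCone.addp (PCone.mulp (h2 i 0) (h4' 0)) (PCone.mul0 (PCone.sub (h2 _ _)) (h4 _ _))
  · change Pp ((ε * M.1 i 0) * (δ * N.1 0 1) + (ε * M.1 i 1) * (δ * N.1 1 1))
    rw [add_comm]
    exact PCone.addp (PCone.mulp (h2 i 1) (h4' 1)) (PCone.mul0 (PCone.sub (h2 _ _)) (h4 _ _))

theorem DM.mul_pm {M N : SL R} (h : DM M) (h' : PM N) : PM (M * N) := by
  obtain ⟨ε, h1, h2, h2'⟩ := h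
  obtain ⟨δ, h3, h4⟩ := h'
  have h5 : ∀ i j, ε * δ * (M * N).1 i j =
      (ε * M.1 i 0) * (δ * N.1 0 j) + (ε * M.1 i 1) * (δ * N.1 1 j) := by
    intro i j
    rw [mul_e]
    ring
  refine ⟨ε * δ, h1.mul h3, fun i j => ?_⟩
  rw [h5]
  fin_cases i
  · exact PCone.addp (PCone.mulp (h2' 0) (h4 0 j)) (PCone.mul0 (h2 _ _) (PCone.sub (h4 _ _)))
  · change Pp ((ε * M.1 1 0) * (δ * N.1 0 j) + (ε * M.1 1 1) * (δ * N.1 1 j))
    rw [add_comm]
    exact PCone.addp (PCone.mulp (h2' 1) (h4 1 j)) (PCone.mul0 (h2 _ _) (PCone.sub (h4 _ _)))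

theorem PM.mul {M N : SL R} (h : PM M) (h' : PM N) : PM (M * N) := h.mul_dm h'.dm

/-- diagonal matrices with positive entries -/
def GM (M : SL R) : Prop := ∃ (t t' : R) (h : t * t' = 1), Pp t ∧ Pp t' ∧ Es M (DG t t' h)

theorem GM.dm {M : SL R} (h : GM M) : DM M := by
  obtain ⟨t, t', h, ht, ht', he⟩ := h
  refine DM.es ?_ he
  refine ⟨1, Or.inl rfl, fun i j => ?_, fun i => ?_⟩
  · rw [one_mul]
    fin_cases i <;> fin_cases j
    · exact PCone.sub ht
    · exact PCone.zero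
    · exact PCone.zero
    · exact PCone.sub ht'
  · rw [one_mul]
    fin_cases i
    · exact ht
    · exact ht'

theorem GM.one : GM (1 : SL R) :=
  ⟨1, 1, by ring, PCone.one, PCone.one, Es.of_eq (by apply mk2_ext <;> simp [DG])⟩

theorem GM.mul {M N : SL R} (h : GM M) (h' : GM N) : GM (M * N) := by
  obtain ⟨t, t', h, ht, ht', he⟩ := h
  obtain ⟨s, s', k, hs, hs', ke⟩ := h'
  refine ⟨t * s, t' * s', by linear_combination (s * s') * h + k, PCone.mulp ht hs,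
    PCone.mulp ht' hs', (he.mul ke).trans (Es.of_eq ?_)⟩
  apply mk2_ext <;> rw [mul_e] <;> simp [DG]

theorem GM.inv {M : SL R} (h : GM M) : GM M⁻¹ := by
  obtain ⟨t, t', h, ht, ht', he⟩ := h
  refine ⟨t', t, by rw [mul_comm]; exact h, ht', ht, he.inv.trans (Es.of_eq ?_)⟩
  apply mk2_ext
  · rw [inv00]; rfl
  · rw [inv01]; simp [DG]
  · rw [inv10]; simp [DG]
  · rw [inv11]; rfl

theorem GM.pow {M : SL R} (h : GM M) (n : ℕ) : GM (M ^ n) := by
  induction n with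
  | zero => rw [pow_zero]; exact GM.one
  | succ n ih => rw [pow_succ]; exact ih.mul h

theorem GM.zpow {M : SL R} (h : GM M) (n : ℤ) : GM (M ^ n) := by
  cases n with
  | ofNat n =>
    rw [Int.ofNat_eq_natCast, zpow_natCast]
    exact h.pow n
  | negSucc n =>
    rw [zpow_negSucc]
    exact (h.pow _).inv

theorem GM.es {M N : SL R} (h : GM M) (h' : Es N M) : GM N := by
  obtain ⟨t, t', h, ht, ht', he⟩ := h
  exact ⟨t, t', h, ht, ht', h'.trans he⟩

/-- conjugation by the rotation -/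
theorem GM.conj {M : SL R} (h : GM M) : GM (KK * M * KK⁻¹) := by
  obtain ⟨t, t', h, ht, ht', he⟩ := h
  refine ⟨t', t, by rw [mul_comm]; exact h, ht', ht, ?_⟩
  have h1 := ((Es.refl (KK : SL R)).mul he).mul (Es.refl KK⁻¹)
  rw [KK_DG, mul_inv_cancel_right] at h1
  exact h1

end

end Pool.Agent.ToCh
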