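import Pool.Agent.Lib.MP_305fdd_al.To.Ch.Cone

/-!
# MP_305fdd_al, lattices with torsion, the chart: the gluing lemma

A representation `ρ` of a group with a central subgroup `F`, a family of leaves with stabilisers
generated by `x i` and frames `Ψ i`, and letters which cross the leaves.  Every element is conjugate to an
element of `F` or to a cyclically reduced word, and the matrix of a reduced word is positive.
-/

set_option autoImplicit false

namespace Pool.Agent.ToCh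

variable {R : Type} [CommRing R] [PCone R] {G : Type} [Group G] {I : Type}

/-- the central group: two leaves are separated -/
structure Cen (ρ : G →* SL R) (F : Subgroup G) (x : I → G) (Ψ : I → SL R) : Prop where
  mem : ∀ i, x i ∈ F
  pos : ∀ f ∈ F, ∀ i j, (i = j ∧ f ∈ Subgroup.zpowers (x i)) ∨ PM ((Ψ i)⁻¹ * ρ f * (Ψ j * KK))

/-- the letters: `L i h j`: cross the leaf `i`, the new leaf is `h` times the leaf `j` -/
structure Lt (ρ : G →* SL R) (F : Subgroup G) (x : I → G) (Ψ : I → SL R)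
    (L : I → G → I → Prop) : Prop where
  dm : ∀ {i h j}, L i h j → DM ((Ψ i * KK)⁻¹ * ρ h * Ψ j)
  inv : ∀ {i h j}, L i h j → L j h⁻¹ i
  red : ∀ {i h j h' k f}, L i h j → L j h' k → f ∈ Subgroup.zpowers (x j) →
    h * f * h' ∈ F ∨ L i (h * f * h') k

/-- reduced words which start and end with a letter -/
inductive Rw (F : Subgroup G) (x : I → G) (L : I → G → I → Prop) : ℕ → I → I → G → Prop
  | one {i j : I} {h : G} : L i h j → Rw F x L 1 i j h
  | snoc {n : ℕ} {i j k l : I} {u f h : G} : Rw F x L n i j u → f ∈ F → L k h l →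
      ¬ (j = k ∧ f ∈ Subgroup.zpowers (x j)) → Rw F x L (n + 1) i l (u * f * h)

/-- elements with a reduced word of at most `n` letters -/
def Rep (F : Subgroup G) (x : I → G) (L : I → G → I → Prop) (n : ℕ) (g : G) : Prop :=
  g ∈ F ∨ ∃ m ≤ n, ∃ i j u f f', Rw F x L m i j u ∧ f ∈ F ∧ f' ∈ F ∧ g = f * u * f'

variable {ρ : G →* SL R} {F : Subgroup G} {x : I → G} {Ψ : I → SL R} {L : I → G → I → Prop}

theorem Rep.mono {n m : ℕ} {g : G} (h : Rep F x L n g) (hnm : n ≤ m) : Rep F x L m g := by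
  rcases h with h | ⟨k, hk, h⟩
  · exact Or.inl h
  · exact Or.inr ⟨k, hk.trans hnm, h⟩

theorem Rep.mulF {n : ℕ} {g f : G} (h : Rep F x L n g) (hf : f ∈ F) : Rep F x L n (g * f) := by
  rcases h with h | ⟨k, hk, i, j, u, f1, f2, hu, h1, h2, rfl⟩
  · exact Or.inl (mul_mem h hf)
  · exact Or.inr ⟨k, hk, i, j, u, f1, f2 * f, hu, h1, mul_mem h2 hf, by rw [mul_assoc]⟩

theorem Rep.Fmul {n : ℕ} {g f : G} (h : Rep F x L n g) (hf : f ∈ F) : Rep F x L n (f * g) := by
  rcases h with h | ⟨k, hk, i, j, u, f1, f2, hu, h1, h2, rfl⟩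
  · exact Or.inl (mul_mem hf h)
  · exact Or.inr ⟨k, hk, i, j, u, f * f1, f2, hu, mul_mem hf h1, h2, by group⟩

/-- multiplication of a reduced word by a letter on the right -/
theorem Rw.mulL (hL : Lt ρ F x Ψ L) {m : ℕ} {i j : I} {u : G} (hu : Rw F x L m i j u) :
    ∀ {k l : I} {f0 f1 h : G}, f0 ∈ F → f1 ∈ F → L k h l → Rep F x L (m + 1) (f0 * u * f1 * h) := by
  induction hu with
  | one h1 =>
    rename_i i j a
    intro k l f0 f1 h hf0 hf1 hh
    by_cases hc : j = k ∧ f1 ∈ Subgroup.zpowers (x j)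
    · obtain ⟨rfl, hf⟩ := hc
      rcases hL.red h1 hh hf with h2 | h2
      · exact Or.inl (by
          have := mul_mem hf0 h2
          rwa [show f0 * (a * f1 * h) = f0 * a * f1 * h by group] at this)
      · exact Or.inr ⟨1, by omega, _, _, _, f0, 1, Rw.one h2, hf0, one_mem _, by group⟩
    · exact Or.inr ⟨2, le_refl _, _, _, _, f0, 1, Rw.snoc (Rw.one h1) hf1 hh hc, hf0, one_mem _,
        by group⟩
  | snoc h1 hf h2 hc' ih =>
    rename_i n i j k0 l0 u0 f a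
    intro k l f0 f1 h hf0 hf1 hh
    by_cases hc : l0 = k ∧ f1 ∈ Subgroup.zpowers (x l0)
    · obtain ⟨rfl, hf'⟩ := hc
      rcases hL.red h2 hh hf' with h3 | h3
      · exact Or.inr ⟨n, by omega, _, _, _, f0, f * (a * f1 * h), h1, hf0, mul_mem hf h3,
          by group⟩
      · have h4 := ih hf0 hf h3
        have h5 : f0 * u0 * f * (a * f1 * h) = f0 * (u0 * f * a) * f1 * h := by group
        rw [h5] at h4
        exact h4.mono (by omega)
    · exact Or.inr ⟨n + 2, le_refl _, _, _, _, f0, 1, Rw.snoc (Rw.snoc h1 hf h2 hc') hf1 hh hc,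
        hf0, one_mem _, by group⟩

theorem Rep.mulL (hL : Lt ρ F x Ψ L) {n : ℕ} {g h : G} {k l : I} (hg : Rep F x L n g)
    (hh : L k h l) : Rep F x L (n + 1) (g * h) := by
  rcases hg with hg | ⟨m, hm, i, j, u, f0, f1, hu, h0, h1, rfl⟩
  · exact Or.inr ⟨1, by omega, k, l, h, g, 1, Rw.one hh, hg, one_mem _, by group⟩
  · exact (hu.mulL hL h0 h1 hh).mono (by omega)

/-- every element of the group generated by `F` and the letters has a reduced word -/
theorem exists_rep (hL : Lt ρ F x Ψ L) {g : G}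
    (hg : g ∈ Subgroup.closure ((F : Set G) ∪ {h | ∃ i j, L i h j})) : ∃ n, Rep F x L n g := by
  induction hg using Subgroup.closure_induction_right with
  | one => exact ⟨0, Or.inl (one_mem _)⟩
  | mul_right a _ b hb ih =>
    obtain ⟨n, hn⟩ := ih
    rcases hb with hb | ⟨i, j, hb⟩
    · exact ⟨n, hn.mulF hb⟩
    · exact ⟨n + 1, hn.mulL hL hb⟩
  | mul_inv_cancel a _ b hb ih =>
    obtain ⟨n, hn⟩ := ih
    rcases hb with hb | ⟨i, j, hb⟩
    · exact ⟨n, hn.mulF (inv_mem hb)⟩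
    · exact ⟨n + 1, hn.mulL hL (hL.inv hb)⟩

/-- a letter which can be cancelled on the left -/
theorem Rw.Lmul (hL : Lt ρ F x Ψ L) {m : ℕ} {i j : I} {u : G} (hu : Rw F x L m i j u) :
    ∀ {k : I} {f h : G}, L k h i → f ∈ Subgroup.zpowers (x i) → Rep F x L m (h * f * u) := by
  induction hu with
  | one h1 =>
    rename_i i j a
    intro k f h hh hf
    rcases hL.red hh h1 hf with h2 | h2
    · exact Or.inl h2
    · exact Or.inr ⟨1, le_refl _, _, _, _, 1, 1, Rw.one h2, one_mem _, one_mem _, by group⟩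
  | snoc h1 hf h2 hc' ih =>
    rename_i n i j k0 l0 u0 f a
    intro k f' h hh hf'
    have h3 := ((ih hh hf').mulF hf).mulL hL h2
    rwa [show h * f' * u0 * f * a = h * f' * (u0 * f * a) by group] at h3

/-- the matrix of a reduced word -/
theorem Rw.dm (hF : Cen ρ F x Ψ) (hL : Lt ρ F x Ψ L) {m : ℕ} {i j : I} {u : G}
    (hu : Rw F x L m i j u) : DM ((Ψ i * KK)⁻¹ * ρ u * Ψ j) := by
  induction hu with
  | one h1 => exact hL.dm h1
  | snoc h1 hf h2 hc' ih =>
    rename_i n i j k0 l0 u0 f a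
    have h3 := (hF.pos f hf j k0).resolve_left hc'
    have h4 := (ih.mul h3.dm).mul (hL.dm h2)
    have h5 : (Ψ i * KK)⁻¹ * ρ u0 * Ψ j * ((Ψ j)⁻¹ * ρ f * (Ψ k0 * KK)) *
        ((Ψ k0 * KK)⁻¹ * ρ a * Ψ l0) = (Ψ i * KK)⁻¹ * ρ (u0 * f * a) * Ψ l0 := by
      rw [map_mul, map_mul]
      group
    rwa [h5] at h4

/-- the matrix of a reduced word with at least two letters -/
theorem Rw.pm (hF : Cen ρ F x Ψ) (hL : Lt ρ F x Ψ L) {m : ℕ} {i l : I} {u : G}
    (hu : Rw F x L m i l u) (hm : 2 ≤ m) : PM ((Ψ i * KK)⁻¹ * ρ u * Ψ l) := by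
  cases hu with
  | one h1 => omega
  | @snoc n _ j k _ u0 f a h1 hf h2 hc' =>
    have h3 := (hF.pos f hf j k).resolve_left hc'
    have h4 := ((h1.dm hF hL).mul_pm h3).mul_dm (hL.dm h2)
    have h5 : (Ψ i * KK)⁻¹ * ρ u0 * Ψ j * ((Ψ j)⁻¹ * ρ f * (Ψ k * KK)) *
        ((Ψ k * KK)⁻¹ * ρ a * Ψ l) = (Ψ i * KK)⁻¹ * ρ (u0 * f * a) * Ψ l := by
      rw [map_mul, map_mul]
      group
    rwa [h5] at h4

/-- cyclically reduced words -/
def Cyc (F : Subgroup G) (x : I → G) (L : I → G → I → Prop) (g : G) : Prop :=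
  ∃ (n : ℕ) (i j : I) (u f : G), Rw F x L n i j u ∧ f ∈ F ∧
    ¬ (j = i ∧ f ∈ Subgroup.zpowers (x j)) ∧ g = u * f

/-- the matrix of a cyclically reduced word -/
theorem Cyc.pm (hF : Cen ρ F x Ψ) (hL : Lt ρ F x Ψ L) {g : G} (h : Cyc F x L g) :
    ∃ i, PM ((Ψ i * KK)⁻¹ * ρ g * (Ψ i * KK)) := by
  obtain ⟨n, i, j, u, f, hu, hf, hc, rfl⟩ := h
  refine ⟨i, ?_⟩
  have h1 := (hu.dm hF hL).mul_pm ((hF.pos f hf j i).resolve_left hc)
  have h2 : (Ψ i * KK)⁻¹ * ρ u * Ψ j * ((Ψ j)⁻¹ * ρ f * (Ψ i * KK)) =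
      (Ψ i * KK)⁻¹ * ρ (u * f) * (Ψ i * KK) := by
    rw [map_mul]
    group
  rwa [h2] at h1

/-- every element is conjugate to an element of `F` or to a cyclically reduced word, if no letter
comes back to the same leaf -/
theorem exists_cyc (hL : Lt ρ F x Ψ L) (hn : ∀ {i h j}, L i h j → i ≠ j) (n : ℕ) :
    ∀ g : G, Rep F x L n g → ∃ c : G, c⁻¹ * g * c ∈ F ∨ Cyc F x L (c⁻¹ * g * c) := by
  induction n using Nat.strong_induction_on with
  | _ n ih =>
    intro g hg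
    rcases hg with hg | ⟨m, hm, i, j, u, f0, f1, hu, h0, h1, rfl⟩
    · exact ⟨1, Or.inl (by simpa using hg)⟩
    by_cases hc : j = i ∧ f1 * f0 ∈ Subgroup.zpowers (x j)
    · obtain ⟨rfl, hf⟩ := hc
      cases hu with
      | one h2 => exact absurd rfl (hn h2)
      | snoc h2 hf' h3 hc' =>
        rename_i n' j' k' u' f' h'
        have h4 : Rep F x L n' (h' * (f1 * f0) * u' * f') := (h2.Lmul hL h3 hf).mulF hf'
        obtain ⟨c, hc⟩ := ih n' (by omega) _ h4
        refine ⟨f0 * (h' * (f1 * f0))⁻¹ * c, ?_⟩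
        have h5 : (f0 * (h' * (f1 * f0))⁻¹ * c)⁻¹ * (f0 * (u' * f' * h') * f1) *
            (f0 * (h' * (f1 * f0))⁻¹ * c) = c⁻¹ * (h' * (f1 * f0) * u' * f') * c := by
          group
        rw [h5]
        exact hc
    · refine ⟨f0, Or.inr ⟨m, i, j, u, f1 * f0, hu, mul_mem h1 h0, hc, by group⟩⟩

/-- the trace of an element of `SL₂` -/
def tr (M : SL R) : R := M.1 0 0 + M.1 1 1

omit [PCone R] in
theorem tr_mul_comm (M N : SL R) : tr (M * N) = tr (N * M) := by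
  unfold tr
  rw [mul_e, mul_e, mul_e, mul_e]
  ring

omit [PCone R] in
theorem tr_conj (M N : SL R) : tr (N⁻¹ * M * N) = tr M := by
  rw [tr_mul_comm, ← mul_assoc, mul_inv_cancel, one_mul]

theorem PM.tr {M : SL R} (h : PM M) : ∃ ε : R, Sg ε ∧ Pp (ε * tr M) := by
  obtain ⟨ε, h1, h2⟩ := h
  refine ⟨ε, h1, ?_⟩
  unfold ToCh.tr
  rw [mul_add]
  exact PCone.addp (h2 0 0) (PCone.sub (h2 1 1))

theorem DM.tr {M : SL R} (h : DM M) : ∃ ε : R, Sg ε ∧ Pp (ε * tr M) := by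
  obtain ⟨ε, h1, -, h2⟩ := h
  refine ⟨ε, h1, ?_⟩
  unfold ToCh.tr
  rw [mul_add]
  exact PCone.addp (h2 0) (PCone.sub (h2 1))

/-- THE TRACES: if the traces of the elements of `F` are positive up to the sign then all traces are -/
theorem tr_pos (hF : Cen ρ F x Ψ) (hL : Lt ρ F x Ψ L) (hn : ∀ {i h j}, L i h j → i ≠ j)
    (hcl : Subgroup.closure ((F : Set G) ∪ {h | ∃ i j, L i h j}) = ⊤)
    (hFt : ∀ f ∈ F, ∃ ε : R, Sg ε ∧ Pp (ε * tr (ρ f))) (g : G) :
    ∃ ε : R, Sg ε ∧ Pp (ε * tr (ρ g)) := by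
  obtain ⟨n, hg⟩ := exists_rep (g := g) hL (by rw [hcl]; exact Subgroup.mem_top _)
  obtain ⟨c, hc⟩ := exists_cyc hL hn n g hg
  have h1 : tr (ρ (c⁻¹ * g * c)) = tr (ρ g) := by
    rw [map_mul, map_mul, map_inv]
    exact tr_conj _ _
  rw [← h1]
  rcases hc with hc | hc
  · exact hFt _ hc
  · obtain ⟨i, hi⟩ := hc.pm hF hL
    obtain ⟨ε, h2, h3⟩ := hi.tr
    rw [tr_conj] at h3
    exact ⟨ε, h2, h3⟩

end Pool.Agent.ToCh
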