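import Pool.Agent.Lib.MP_305fdd_al.To.Ch.Grp
import Mathlib.Algebra.Group.Conj

/-!
# MP_305fdd_al, torsion room: words in the group of the `2g`-holed sphere
-/

set_option autoImplicit false

namespace Pool.Agent.ToC

open Pool.Agent.Su
open Matrix (SpecialLinearGroup)

/-- `p` and `q` are different modulo `2g` -/
def Nd (g : ℕ) (p q : ℤ) : Prop := ¬ ((2 * g : ℤ) ∣ q - p)

section nd

variable {g : ℕ}

theorem Nd.symm {p q : ℤ} (h : Nd g p q) : Nd g q p := fun h' => h (by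
  rw [show q - p = -(p - q) by ring]
  exact (dvd_neg).2 h')

theorem Nd.pred (hg : 1 ≤ g) (i : ℤ) : Nd g i (i - 1) := by
  rintro ⟨c, hc⟩
  have h1 : (2 * (g : ℤ)) * c = -1 := by omega
  have h2 : (2 * (g : ℤ)) ∣ 1 := ⟨-c, by linarith⟩
  have h3 := Int.le_of_dvd (by norm_num) h2
  omega

theorem Nd.congr {p q r : ℤ} (h : ¬ Nd g p q) (h' : Nd g p r) : Nd g q r := fun h'' => h' (by
  have h1 : (2 * g : ℤ) ∣ q - p := not_not.1 h
  rw [show r - p = (r - q) + (q - p) by ring]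
  exact dvd_add h'' h1)

theorem Gz_eq' {p q : ℤ} (h : ¬ Nd g p q) : Gz g p = Gz g q := Gz_eq g (not_not.1 h)

end nd

/-- reduced words, with the first and the last letter -/
inductive Rd (g : ℕ) : ℤ → ℤ → SurfaceGroup g → Prop
  | one {p q : ℤ} (h : Nd g p q) : Rd g p q ((Gz g p)⁻¹ * Gz g q)
  | cons {p q r s : ℤ} {x : SurfaceGroup g} (h : Nd g p q) (h' : Nd g q r) (hx : Rd g r s x) :
      Rd g p s ((Gz g p)⁻¹ * Gz g q * x)

section rd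

variable {g : ℕ}

theorem Rd.mul_left (r s : ℤ) {x : SurfaceGroup g} (hx : x = 1 ∨ ∃ p q, Rd g p q x) :
    (Gz g r)⁻¹ * Gz g s * x = 1 ∨ ∃ p q, Rd g p q ((Gz g r)⁻¹ * Gz g s * x) := by
  by_cases h : Nd g r s
  · rcases hx with rfl | ⟨p, q, hx⟩
    · rw [mul_one]
      exact Or.inr ⟨r, s, Rd.one h⟩
    · by_cases h2 : Nd g s p
      · exact Or.inr ⟨r, q, Rd.cons h h2 hx⟩
      · rw [Gz_eq' h2]
        rcases hx with h3 | @⟨_, q', r', _, x', h3, h4, hx'⟩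
        · have e : (Gz g r)⁻¹ * Gz g p * ((Gz g p)⁻¹ * Gz g q) = (Gz g r)⁻¹ * Gz g q := by group
          rw [e]
          by_cases h4 : Nd g r q
          · exact Or.inr ⟨r, q, Rd.one h4⟩
          · rw [Gz_eq' h4, inv_mul_cancel]
            exact Or.inl rfl
        · have e : (Gz g r)⁻¹ * Gz g p * ((Gz g p)⁻¹ * Gz g q' * x') =
              (Gz g r)⁻¹ * Gz g q' * x' := by group
          rw [e]
          by_cases h5 : Nd g r q'
          · exact Or.inr ⟨r, q, Rd.cons h5 h4 hx'⟩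
          · rw [Gz_eq' h5, inv_mul_cancel, one_mul]
            exact Or.inr ⟨r', q, hx'⟩
  · rw [Gz_eq' h, inv_mul_cancel, one_mul]
    exact hx

theorem inv_cz (j : ℤ) : (cz g j)⁻¹ = (Gz g j)⁻¹ * Gz g (j - 1) := by
  rw [cz]; group

theorem exists_rd {x : SurfaceGroup g} (hx : x ∈ FF g) : x = 1 ∨ ∃ p q, Rd g p q x := by
  refine Subgroup.closure_induction_left (p := fun x _ => x = 1 ∨ ∃ p q, Rd g p q x)
    (Or.inl rfl) ?_ ?_ hx
  · rintro x ⟨j, rfl⟩ y _ hy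
    exact Rd.mul_left _ _ hy
  · rintro x ⟨j, rfl⟩ y _ hy
    rw [inv_cz]
    exact Rd.mul_left _ _ hy

theorem adjL (hg : 1 ≤ g) (i : ℤ) {p q : ℤ} {x : SurfaceGroup g} (hx : Rd g p q x) :
    ∃ (m : ℤ) (y : SurfaceGroup g), x = cz g i ^ m * y ∧
      (y = 1 ∨ ∃ p', Rd g p' q y ∧ Nd g i p') := by
  induction hx with
  | @one p q h =>
    by_cases h1 : Nd g i p
    · exact ⟨0, _, by rw [zpow_zero, one_mul], Or.inr ⟨p, Rd.one h, h1⟩⟩
    · rw [← Gz_eq' h1]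
      refine ⟨-1, (Gz g (i - 1))⁻¹ * Gz g q, ?_, ?_⟩
      · rw [zpow_neg_one, inv_cz]; group
      · by_cases h2 : Nd g (i - 1) q
        · exact Or.inr ⟨i - 1, Rd.one h2, Nd.pred hg i⟩
        · rw [Gz_eq' h2, inv_mul_cancel]
          exact Or.inl rfl
  | @cons p q r s x h h' hx ih =>
    by_cases h1 : Nd g i p
    · exact ⟨0, _, by rw [zpow_zero, one_mul], Or.inr ⟨p, Rd.cons h h' hx, h1⟩⟩
    · rw [← Gz_eq' h1]
      by_cases h2 : Nd g (i - 1) q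
      · refine ⟨-1, (Gz g (i - 1))⁻¹ * Gz g q * x, ?_, Or.inr ⟨i - 1, Rd.cons h2 h' hx,
          Nd.pred hg i⟩⟩
        rw [zpow_neg_one, inv_cz]; group
      · obtain ⟨m, y, h3, h4⟩ := ih
        refine ⟨m - 1, y, ?_, h4⟩
        rw [← Gz_eq' h2, ← inv_cz, h3, ← mul_assoc, ← zpow_neg_one, ← zpow_add,
          show -1 + m = m - 1 by ring]

theorem adjR_one (hg : 1 ≤ g) (j : ℤ) {p q : ℤ} (h : Nd g p q) :
    ∃ (n : ℤ) (y : SurfaceGroup g), (Gz g p)⁻¹ * Gz g q = y * cz g j ^ n ∧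
      (y = 1 ∨ ∃ q', Rd g p q' y ∧ Nd g j q') := by
  by_cases h1 : Nd g j q
  · exact ⟨0, _, by rw [zpow_zero, mul_one], Or.inr ⟨q, Rd.one h, h1⟩⟩
  · rw [← Gz_eq' h1]
    refine ⟨1, (Gz g p)⁻¹ * Gz g (j - 1), ?_, ?_⟩
    · rw [zpow_one, cz]; group
    · by_cases h2 : Nd g p (j - 1)
      · exact Or.inr ⟨j - 1, Rd.one h2, Nd.pred hg j⟩
      · rw [Gz_eq' h2, inv_mul_cancel]
        exact Or.inl rfl

theorem adjR (hg : 1 ≤ g) (j : ℤ) {p q : ℤ} {x : SurfaceGroup g} (hx : Rd g p q x) :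
    ∃ (n : ℤ) (y : SurfaceGroup g), x = y * cz g j ^ n ∧
      (y = 1 ∨ ∃ q', Rd g p q' y ∧ Nd g j q') := by
  induction hx with
  | @one p q h => exact adjR_one hg j h
  | @cons p q r s x h h' hx ih =>
    obtain ⟨n, y, h3, rfl | ⟨q', h4, h5⟩⟩ := ih
    · obtain ⟨n', y', h6, h7⟩ := adjR_one hg j h
      refine ⟨n' + n, y', ?_, h7⟩
      rw [h3, one_mul, h6, mul_assoc, ← zpow_add]
    · refine ⟨n, (Gz g p)⁻¹ * Gz g q * y, ?_, Or.inr ⟨q', Rd.cons h h' h4, h5⟩⟩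
      rw [h3, ← mul_assoc]

end rd

section mp

variable {A : Type} [CommRing A] {S : Subsemiring A}

theorem Mp.neg {M : SpecialLinearGroup (Fin 2) A} {P Q : (Fin 2 → A) × (Fin 2 → A)}
    (h : Mp S M P Q) : Mp S (-M) P Q := by
  obtain ⟨e, he, h1, h2⟩ := h
  refine ⟨-e, ?_, ?_, ?_⟩
  · rcases he with rfl | rfl <;> simp
  · rw [neg_ac, neg_smul_neg]; exact h1
  · rw [neg_ac, neg_smul_neg]; exact h2

theorem Mp.refl (P : (Fin 2 → A) × (Fin 2 → A)) : Mp S 1 P P :=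
  ⟨1, Or.inl rfl, by rw [ac_one, one_smul]; exact fst_mem_cone P,
    by rw [ac_one, one_smul]; exact snd_mem_cone P⟩

theorem Mp.zpow {M : SpecialLinearGroup (Fin 2) A} {P : (Fin 2 → A) × (Fin 2 → A)}
    (h : Mp S M P P) (h' : Mp S M⁻¹ P P) (m : ℤ) : Mp S (M ^ m) P P := by
  induction m using Int.induction_on with
  | zero => rw [zpow_zero]; exact Mp.refl P
  | succ m ih => rw [zpow_add_one]; exact ih.comp h
  | pred m ih => rw [zpow_sub_one]; exact ih.comp h'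

/-- the vectors of the front polygon are mapped into a cone, up to signs -/
def Mv {g : ℕ} (D : Dat S g) (M : SpecialLinearGroup (Fin 2) A)
    (Q : (Fin 2 → A) × (Fin 2 → A)) : Prop :=
  ∀ l : ℤ, ∃ e : A, (e = 1 ∨ e = -1) ∧ e • ac M (D.nu l) ∈ cone S Q

theorem Mv.comp {g : ℕ} {D : Dat S g} {M N : SpecialLinearGroup (Fin 2) A}
    {P Q : (Fin 2 → A) × (Fin 2 → A)} (hN : Mp S N P Q) (hM : Mv D M P) : Mv D (N * M) Q := by
  intro l
  obtain ⟨f, hf, h⟩ := hN.all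
  obtain ⟨e, he, h1⟩ := hM l
  refine ⟨f * e, sgn_mul hf he, ?_⟩
  have := h _ h1
  rwa [ac_smul, smul_smul, ← ac_mul] at this

end mp

namespace Dat

variable {A : Type} [CommRing A] {S : Subsemiring A} {g : ℕ} (D : Dat S g)

theorem Mp_rho_pair (hg : 1 ≤ g) {p q : ℤ} (h : Nd g p q) :
    Mp S (D.rho ((Gz g p)⁻¹ * Gz g q)) (D.cD q) (D.cC p) := by
  have h1 := D.Mp_pair hg h
  have e1 : ((D.G (-1))⁻¹ * D.G p)⁻¹ * ((D.G (-1))⁻¹ * D.G q) = (D.G p)⁻¹ * D.G q := by group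
  rw [map_mul, map_inv]
  rcases D.rho_Gz hg p with h2 | h2 <;> rcases D.rho_Gz hg q with h3 | h3 <;> rw [h2, h3]
  · rwa [e1]
  · rw [mul_neg, e1]; exact h1.neg
  · rw [inv_neg, neg_mul, e1]; exact h1.neg
  · rw [inv_neg, neg_mul_neg, e1]; exact h1

theorem Mp_rd (hg : 1 ≤ g) {p q : ℤ} {x : SurfaceGroup g} (hx : Rd g p q x) :
    Mp S (D.rho x) (D.cD q) (D.cC p) := by
  induction hx with
  | one h => exact D.Mp_rho_pair hg h
  | @cons p q r s x h h' hx ih =>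
    rw [map_mul]
    have h1 := (D.Mp_rho_pair hg h).comp ((D.Mp_C_D hg h').comp ih)
    rwa [one_mul] at h1

theorem Mp_cz_K (hg : 1 ≤ g) (j m : ℤ) : Mp S (D.rho (cz g j ^ m)) (D.cK j) (D.cK j) := by
  rw [map_zpow, D.rho_cz hg]
  exact (D.Mp_c_K j).zpow (D.Mp_c_inv_K j) m

theorem Mp_cz_J (hg : 1 ≤ g) (j m : ℤ) : Mp S (D.rho (cz g j ^ m)) (D.cJ j) (D.cJ j) := by
  rw [map_zpow, D.rho_cz hg]
  exact (D.Mp_c_J j).zpow (D.Mp_c_inv_J j) m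

theorem Mp_C_K (hg : 2 ≤ g) {i p : ℤ} (h : Nd g i p) : Mp S 1 (D.cC p) (D.cK i) := by
  have h1 := (D.Mp_D_K hg i).comp (D.Mp_C_D (by omega) h)
  rwa [one_mul] at h1

theorem Mp_J_K (hg : 2 ≤ g) {i j : ℤ} (h : Nd g i j) : Mp S 1 (D.cJ j) (D.cK i) := by
  have h1 := (D.Mp_C_K hg h).comp (D.Mp_J_C hg j)
  rwa [one_mul] at h1

/-- the lines -/
theorem fJ (hg : 2 ≤ g) {x : SurfaceGroup g} (hx : x ∈ FF g) {i j : ℤ}
    (h : Nd g i j ∨ x ∉ Subgroup.zpowers (cz g i)) :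
    Mp S (D.rho x) (D.cJ j) (D.cK i) := by
  have hg1 : 1 ≤ g := by omega
  rcases exists_rd hx with rfl | ⟨p, q, hx⟩
  · rw [map_one]
    exact D.Mp_J_K hg (h.resolve_right fun h' => h' (Subgroup.one_mem _))
  obtain ⟨m, y, rfl, rfl | ⟨p', hy, h1⟩⟩ := adjL hg1 i hx
  · rw [mul_one] at h ⊢
    have h2 := h.resolve_right fun h' => h' (Subgroup.mem_zpowers_iff.2 ⟨m, rfl⟩)
    have h3 := (D.Mp_cz_K hg1 i m).comp (D.Mp_J_K hg h2)
    rwa [mul_one] at h3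
  obtain ⟨n, z, rfl, rfl | ⟨q', hz, h2⟩⟩ := adjR hg1 j hy
  · rw [one_mul] at h ⊢
    by_cases h3 : Nd g i j
    · have h4 := (D.Mp_cz_K hg1 i m).comp ((D.Mp_J_K hg h3).comp (D.Mp_cz_J hg1 j n))
      rwa [one_mul, ← map_mul] at h4
    · exfalso
      refine h.resolve_left h3 ?_
      rw [cz_eq g (not_not.1 h3), ← zpow_add]
      exact Subgroup.mem_zpowers_iff.2 ⟨m + n, rfl⟩
  · have h4 := (D.Mp_cz_K hg1 i m).comp ((D.Mp_C_K hg h1).comp ((D.Mp_rd hg1 hz).comp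
      ((D.Mp_C_D hg1 h2.symm).comp ((D.Mp_J_C hg j).comp (D.Mp_cz_J hg1 j n)))))
    rwa [one_mul, one_mul, one_mul, ← map_mul, ← map_mul] at h4

/-- the vertices and the lines -/
theorem fV (hg : 2 ≤ g) {x : SurfaceGroup g} (hx : x ∈ FF g) (i : ℤ) :
    Mv D (D.rho x) (D.cK i) := by
  have hg1 : 1 ≤ g := by omega
  have h0 : ∀ q : ℤ, Mv D 1 (D.cD q) := fun q l => by
    rw [ac_one]
    exact D.nu_mem_cD hg1 q l
  have h00 : Mv D 1 (D.cK i) := by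
    have := Mv.comp (D.Mp_D_K hg i) (h0 i)
    rwa [one_mul] at this
  rcases exists_rd hx with rfl | ⟨p, q, hx⟩
  · rw [map_one]; exact h00
  obtain ⟨m, y, rfl, rfl | ⟨p', hy, h1⟩⟩ := adjL hg1 i hx
  · rw [mul_one]
    have := Mv.comp (D.Mp_cz_K hg1 i m) h00
    rwa [mul_one] at this
  · have := Mv.comp ((D.Mp_cz_K hg1 i m).comp ((D.Mp_C_K hg h1).comp (D.Mp_rd hg1 hy))) (h0 q)
    rwa [one_mul, mul_one, ← map_mul] at this

theorem fC (hg : 2 ≤ g) {x : SurfaceGroup g} (hx : x ∈ FF g) (j : ℤ) :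
    ∃ i : ℤ, Mp S (D.rho x) (D.cJ j) (D.cC i) := by
  have hg1 : 1 ≤ g := by omega
  rcases exists_rd hx with rfl | ⟨p, q, hx⟩
  · rw [map_one]; exact ⟨j, D.Mp_J_C hg j⟩
  obtain ⟨n, z, rfl, rfl | ⟨q', hz, h2⟩⟩ := adjR hg1 j hx
  · refine ⟨j, ?_⟩
    have := (D.Mp_J_C hg j).comp (D.Mp_cz_J hg1 j n)
    rwa [one_mul] at this ⊢
  · refine ⟨p, ?_⟩
    have h4 := (D.Mp_rd hg1 hz).comp
      ((D.Mp_C_D hg1 h2.symm).comp ((D.Mp_J_C hg j).comp (D.Mp_cz_J hg1 j n)))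
    rwa [one_mul, one_mul, ← map_mul] at h4

theorem fN (hg : 2 ≤ g) {x : SurfaceGroup g} (hx : x ∈ FF g) (h : x ≠ 1) :
    ∃ j : ℤ, Mv D (D.rho x) (D.cC j) := by
  have hg1 : 1 ≤ g := by omega
  obtain ⟨p, q, hx⟩ := (exists_rd hx).resolve_left h
  refine ⟨p, ?_⟩
  have h0 : Mv D 1 (D.cD q) := fun l => by
    rw [ac_one]
    exact D.nu_mem_cD hg1 q l
  have := Mv.comp (D.Mp_rd hg1 hx) h0
  rwa [mul_one] at this

end Dat

end Pool.Agent.ToC
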